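import Mathlib

set_option autoImplicit false

/-! # Sums of independent indicators: exponential moments, large deviations, Borel–Cantelli -/

open MeasureTheory ProbabilityTheory Filter Finset Topology

namespace Pool.Agent.U53.PW

variable {Ω : Type*} [mΩ : MeasurableSpace Ω] {μ : Measure Ω} [IsProbabilityMeasure μ]

/-- the indicator of `E m` -/
noncomputable def ind (E : ℕ → Set Ω) (m : ℕ) : Ω → ℝ := (E m).indicator (fun _ => (1 : ℝ))

/-- the number of the `m ∈ I` with `ω ∈ E m` -/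
noncomputable def cnt (E : ℕ → Set Ω) (I : Finset ℕ) : Ω → ℝ := fun ω => ∑ m ∈ I, ind E m ω

lemma ind_meas {E : ℕ → Set Ω} (hm : ∀ n, MeasurableSet (E n)) (m : ℕ) : Measurable (ind E m) :=
  measurable_const.indicator (hm m)

omit mΩ in
lemma ind_le (E : ℕ → Set Ω) (m : ℕ) (ω : Ω) : 0 ≤ ind E m ω ∧ ind E m ω ≤ 1 := by
  unfold ind
  by_cases h : ω ∈ E m
  · simp [h]
  · simp [h]

lemma cnt_meas {E : ℕ → Set Ω} (hm : ∀ n, MeasurableSet (E n)) (I : Finset ℕ) : Measurable (cnt E I) :=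
  Finset.measurable_sum _ fun m _ => ind_meas hm m

omit mΩ in
lemma cnt_le (E : ℕ → Set Ω) (I : Finset ℕ) (ω : Ω) : 0 ≤ cnt E I ω ∧ cnt E I ω ≤ I.card := by
  unfold cnt
  constructor
  · exact sum_nonneg fun m _ => (ind_le E m ω).1
  · calc ∑ m ∈ I, ind E m ω ≤ ∑ _m ∈ I, (1 : ℝ) := sum_le_sum fun m _ => (ind_le E m ω).2
      _ = I.card := by simp

lemma integ {E : ℕ → Set Ω} (hm : ∀ n, MeasurableSet (E n)) (I : Finset ℕ) (t : ℝ) :
    Integrable (fun ω => Real.exp (t * cnt E I ω)) μ := by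
  refine Integrable.of_bound (C := Real.exp (|t| * I.card)) ?_ ?_
  · exact (Real.measurable_exp.comp ((cnt_meas hm I).const_mul t)).aestronglyMeasurable
  · refine Eventually.of_forall fun ω => ?_
    rw [Real.norm_eq_abs, Real.abs_exp]
    apply Real.exp_le_exp.2
    obtain ⟨h1, h2⟩ := cnt_le E I ω
    calc t * cnt E I ω ≤ |t| * cnt E I ω := mul_le_mul_of_nonneg_right (le_abs_self t) h1
      _ ≤ |t| * I.card := mul_le_mul_of_nonneg_left h2 (abs_nonneg t)

lemma mgf_ind {E : ℕ → Set Ω} (hm : ∀ n, MeasurableSet (E n)) (m : ℕ) (t : ℝ) :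
    mgf (ind E m) μ t = 1 + (Real.exp t - 1) * μ.real (E m) := by
  unfold mgf
  have h : ∀ ω, Real.exp (t * ind E m ω) = 1 + (E m).indicator (fun _ => Real.exp t - 1) ω := by
    intro ω
    unfold ind
    by_cases hω : ω ∈ E m
    · simp [hω]
    · simp [hω]
  simp only [h]
  rw [integral_add (integrable_const _) ((integrable_const _).indicator (hm m)), integral_indicator_const _ (hm m)]
  simp [mul_comm]

lemma mgf_cnt {E : ℕ → Set Ω} (hm : ∀ n, MeasurableSet (E n)) (hE : iIndepSet E μ) (I : Finset ℕ) (t : ℝ) :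
    mgf (cnt E I) μ t = ∏ m ∈ I, (1 + (Real.exp t - 1) * μ.real (E m)) := by
  have h1 : iIndepFun (ind E) μ := hE.iIndepFun_indicator
  have h2 := h1.mgf_sum (t := t) (fun m => ind_meas hm m) I
  have h3 : cnt E I = ∑ m ∈ I, ind E m := by
    ext ω
    unfold cnt
    rw [Finset.sum_apply]
  rw [h3, h2]
  exact prod_congr rfl fun m _ => mgf_ind hm m t

lemma exp_sub_sq {x : ℝ} (hx : |x| ≤ 1 / 3) : Real.exp (x - x ^ 2) ≤ 1 + x := by
  have hx' := abs_le.1 hx
  have h0 : 0 < 1 + x := by linarith [hx'.1]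
  rw [← Real.le_log_iff_exp_le h0]
  by_cases hs : 0 ≤ x
  · have h5 : x - x ^ 2 / 2 ≤ Real.log (1 + x) := by
      have := Real.le_log_one_add_of_nonneg hs
      refine le_trans ?_ this
      rw [le_div_iff₀ (by linarith)]
      nlinarith [mul_nonneg hs hs, mul_nonneg (mul_nonneg hs hs) hs]
    nlinarith [sq_nonneg x]
  · have hs' : x < 0 := not_le.1 hs
    have h7 : x - x ^ 2 ≤ Real.log (1 + x) := by
      have h8 := Real.abs_log_sub_add_sum_range_le (x := -x) (by rw [abs_neg]; linarith) 2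
      simp only [Finset.sum_range_succ, Finset.sum_range_zero, zero_add, pow_one, Nat.cast_zero, div_one, sub_neg_eq_add, abs_neg, Nat.cast_one] at h8
      have h9 := (abs_le.1 h8).1
      have h10 : |x| ^ (2 + 1) / (1 - |x|) ≤ x ^ 2 / 2 := by
        have e : |x| = -x := abs_of_neg hs'
        rw [e, div_le_iff₀ (by linarith)]
        nlinarith [mul_nonneg (sq_nonneg x) (by linarith [hx'.1] : (0 : ℝ) ≤ 1 + 3 * x)]
      have h11 : (-x) ^ (1 + 1) / (1 + 1) = x ^ 2 / 2 := by ring
      rw [h11] at h9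
      linarith
    exact h7

lemma mgf_upper {E : ℕ → Set Ω} (hm : ∀ n, MeasurableSet (E n)) (hE : iIndepSet E μ) (I : Finset ℕ) (t : ℝ) :
    mgf (cnt E I) μ t ≤ Real.exp ((Real.exp t - 1) * ∑ m ∈ I, μ.real (E m)) := by
  rw [mgf_cnt hm hE, mul_sum, Real.exp_sum]
  apply Finset.prod_le_prod
  · intro m _
    have h1 : μ.real (E m) ≤ 1 := measureReal_le_one
    have h2 : 0 ≤ μ.real (E m) := measureReal_nonneg
    nlinarith [Real.exp_pos t]
  · intro m _
    have := Real.add_one_le_exp ((Real.exp t - 1) * μ.real (E m))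
    linarith

lemma mgf_lower {E : ℕ → Set Ω} (hm : ∀ n, MeasurableSet (E n)) (hE : iIndepSet E μ) (I : Finset ℕ) (t η : ℝ)
    (hη : ∀ m ∈ I, μ.real (E m) ≤ η) (hη2 : |Real.exp t - 1| * η ≤ 1 / 3) :
    Real.exp ((Real.exp t - 1) * ∑ m ∈ I, μ.real (E m) - (Real.exp t - 1) ^ 2 * η * ∑ m ∈ I, μ.real (E m)) ≤
      mgf (cnt E I) μ t := by
  rw [mgf_cnt hm hE, mul_sum, mul_sum, ← sum_sub_distrib, Real.exp_sum]
  apply Finset.prod_le_prod
  · intro m _
    positivity
  · intro m hmI
    have h2 : 0 ≤ μ.real (E m) := measureReal_nonneg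
    have h3 := hη m hmI
    have h4 : |(Real.exp t - 1) * μ.real (E m)| ≤ 1 / 3 := by
      rw [abs_mul, abs_of_nonneg h2]
      exact (mul_le_mul_of_nonneg_left h3 (abs_nonneg _)).trans hη2
    refine le_trans (Real.exp_le_exp.2 ?_) (exp_sub_sq h4)
    have h5 : ((Real.exp t - 1) * μ.real (E m)) ^ 2 ≤ (Real.exp t - 1) ^ 2 * η * μ.real (E m) := by
      have : ((Real.exp t - 1) * μ.real (E m)) ^ 2 = (Real.exp t - 1) ^ 2 * (μ.real (E m) * μ.real (E m)) := by ring
      rw [this, mul_assoc]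
      gcongr
    linarith

/-- the lower bound for the probability of a window -/
lemma window_low (X : Ω → ℝ) (hX : Measurable X) (hint : ∀ t, Integrable (fun ω => Real.exp (t * X ω)) μ)
    (t t1 t2 K1 K2 : ℝ) (h1 : t ≤ t1) (h2 : t2 ≤ t) :
    mgf X μ t ≤ Real.exp (max (t * K1) (t * K2)) * μ.real {ω | K1 ≤ X ω ∧ X ω ≤ K2} +
      Real.exp ((t - t1) * K2) * mgf X μ t1 + Real.exp ((t - t2) * K1) * mgf X μ t2 := by
  have hB : MeasurableSet {ω | K1 ≤ X ω ∧ X ω ≤ K2} :=
    (measurableSet_le measurable_const hX).inter (measurableSet_le hX measurable_const)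
  have e1 : Real.exp (max (t * K1) (t * K2)) * μ.real {ω | K1 ≤ X ω ∧ X ω ≤ K2} +
      Real.exp ((t - t1) * K2) * mgf X μ t1 + Real.exp ((t - t2) * K1) * mgf X μ t2 =
      ∫ ω, ({ω | K1 ≤ X ω ∧ X ω ≤ K2}.indicator (fun _ => Real.exp (max (t * K1) (t * K2))) ω +
        Real.exp ((t - t1) * K2) * Real.exp (t1 * X ω) + Real.exp ((t - t2) * K1) * Real.exp (t2 * X ω)) ∂μ := by
    rw [integral_add, integral_add, integral_indicator_const _ hB, integral_const_mul, integral_const_mul]
    · unfold mgf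
      rw [smul_eq_mul, mul_comm]
    · exact (integrable_const _).indicator hB
    · exact (hint t1).const_mul _
    · exact ((integrable_const _).indicator hB).add ((hint t1).const_mul _)
    · exact (hint t2).const_mul _
  rw [e1]
  unfold mgf
  apply integral_mono (hint t)
  · exact (((integrable_const _).indicator hB).add ((hint t1).const_mul _)).add ((hint t2).const_mul _)
  · intro ω
    have p1 := Real.exp_pos ((t - t1) * K2)
    have p2 := Real.exp_pos (t1 * X ω)
    have p3 := Real.exp_pos ((t - t2) * K1)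
    have p4 := Real.exp_pos (t2 * X ω)
    beta_reduce
    by_cases hω : K1 ≤ X ω ∧ X ω ≤ K2
    · have h3 : {ω | K1 ≤ X ω ∧ X ω ≤ K2}.indicator (fun _ => Real.exp (max (t * K1) (t * K2))) ω =
          Real.exp (max (t * K1) (t * K2)) :=
        Set.indicator_of_mem (show ω ∈ {ω | K1 ≤ X ω ∧ X ω ≤ K2} from hω) _
      rw [h3]
      have h4 : Real.exp (t * X ω) ≤ Real.exp (max (t * K1) (t * K2)) := by
        apply Real.exp_le_exp.2
        rcases le_total 0 t with ht | ht
        · exact (mul_le_mul_of_nonneg_left hω.2 ht).trans (le_max_right _ _)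
        · exact (mul_le_mul_of_nonpos_left hω.1 ht).trans (le_max_left _ _)
      nlinarith [mul_pos p1 p2, mul_pos p3 p4]
    · have h3 : {ω | K1 ≤ X ω ∧ X ω ≤ K2}.indicator (fun _ => Real.exp (max (t * K1) (t * K2))) ω = 0 :=
        Set.indicator_of_notMem (show ω ∉ {ω | K1 ≤ X ω ∧ X ω ≤ K2} from hω) _
      rw [h3, zero_add, ← Real.exp_add, ← Real.exp_add]
      rcases lt_or_ge (X ω) K1 with h5 | h5
      · have h6 : Real.exp (t * X ω) ≤ Real.exp ((t - t2) * K1 + t2 * X ω) := by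
          apply Real.exp_le_exp.2
          nlinarith
        have := Real.exp_pos ((t - t1) * K2 + t1 * X ω)
        linarith
      · have h7 : K2 < X ω := by
          by_contra h8
          exact hω ⟨h5, not_lt.1 h8⟩
        have h6 : Real.exp (t * X ω) ≤ Real.exp ((t - t1) * K2 + t1 * X ω) := by
          apply Real.exp_le_exp.2
          nlinarith
        have := Real.exp_pos ((t - t2) * K1 + t2 * X ω)
        linarith

omit [IsProbabilityMeasure μ] in
/-- events which depend on disjoint blocks are independent -/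
lemma group_indep {E : ℕ → Set Ω} (hm : ∀ n, MeasurableSet (E n)) (hE : iIndepSet E μ)
    (I : ℕ → Finset ℕ) (hd : Pairwise (Function.onFun Disjoint I)) (B : ℕ → Set Ω)
    (hB : ∀ n, MeasurableSet[⨆ m ∈ (I n : Set ℕ), MeasurableSpace.generateFrom {E m}] (B n)) : iIndepSet B μ := by
  classical
  have hle : ∀ m, MeasurableSpace.generateFrom {E m} ≤ mΩ := fun m =>
    MeasurableSpace.generateFrom_le fun t ht => by
      rw [Set.mem_singleton_iff] at ht
      rw [ht]
      exact hm m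
  have hle2 : ∀ S : Set ℕ, (⨆ m ∈ S, MeasurableSpace.generateFrom {E m}) ≤ mΩ := fun S =>
    iSup₂_le fun m _ => hle m
  have hi : iIndep (fun m => MeasurableSpace.generateFrom {E m}) μ := (iIndepSet_iff_iIndep _ _).1 hE
  have hP : IsProbabilityMeasure μ := hE.isProbabilityMeasure
  rw [iIndepSet_iff_meas_biInter (fun n => hle2 _ _ (hB n))]
  intro s
  induction s using Finset.induction_on with
  | empty => simp
  | insert a s ha ih =>
    rw [Finset.set_biInter_insert, prod_insert ha, ← ih]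
    have hdis : Disjoint (I a : Set ℕ) (⋃ n ∈ s, (I n : Set ℕ)) := by
      rw [Set.disjoint_iUnion₂_right]
      intro n hn
      have : a ≠ n := fun h => ha (h ▸ hn)
      exact_mod_cast Finset.disjoint_coe.2 (hd this)
    have h1 := indep_iSup_of_disjoint hle hi hdis
    rw [Indep_iff] at h1
    apply h1 _ _ (hB a)
    apply MeasurableSet.biInter s.countable_toSet
    intro n hn
    have h2 : (⨆ m ∈ (I n : Set ℕ), MeasurableSpace.generateFrom {E m}) ≤
        ⨆ m ∈ (⋃ n ∈ s, (I n : Set ℕ)), MeasurableSpace.generateFrom {E m} := by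
      refine iSup₂_le fun m hm' => ?_
      refine le_iSup₂_of_le m ?_ le_rfl
      exact Set.mem_biUnion hn hm'
    exact h2 _ (hB n)

lemma window_aux {E : ℕ → Set Ω} (I : Finset ℕ) (hE : ∀ m ∈ I, MeasurableSet (E m)) (K1 K2 : ℝ) :
    MeasurableSet {ω | K1 ≤ cnt E I ω ∧ cnt E I ω ≤ K2} := by
  have h1 : Measurable (cnt E I) := Finset.measurable_sum _ fun m hm => measurable_const.indicator (hE m hm)
  exact (measurableSet_le measurable_const h1).inter (measurableSet_le h1 measurable_const)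

omit mΩ in
lemma window_meas (E : ℕ → Set Ω) (I : Finset ℕ) (K1 K2 : ℝ) :
    MeasurableSet[⨆ m ∈ (I : Set ℕ), MeasurableSpace.generateFrom {E m}] {ω | K1 ≤ cnt E I ω ∧ cnt E I ω ≤ K2} := by
  refine @window_aux Ω (⨆ m ∈ (I : Set ℕ), MeasurableSpace.generateFrom {E m}) E I (fun m hm => ?_) K1 K2
  have h3 : MeasurableSpace.generateFrom {E m} ≤ ⨆ m ∈ (I : Set ℕ), MeasurableSpace.generateFrom {E m} :=
    le_iSup₂_of_le m hm le_rfl
  exact h3 _ (MeasurableSpace.measurableSet_generateFrom rfl)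

/-- second Borel–Cantelli lemma for windows -/
lemma io {E : ℕ → Set Ω} (hm : ∀ n, MeasurableSet (E n)) (hE : iIndepSet E μ)
    (I : ℕ → Finset ℕ) (n₀ : ℕ) (hd : ∀ a b, n₀ ≤ a → a < b → Disjoint (I a) (I b)) (K1 K2 : ℕ → ℝ)
    (hdiv : ¬ Summable (fun n => μ.real {ω | K1 n ≤ cnt E (I n) ω ∧ cnt E (I n) ω ≤ K2 n})) :
    ∀ᵐ ω ∂μ, ∃ᶠ n in atTop, K1 n ≤ cnt E (I n) ω ∧ cnt E (I n) ω ≤ K2 n := by
  obtain ⟨B, hB⟩ : ∃ B : ℕ → Set Ω, B = fun n => {ω | K1 (n + n₀) ≤ cnt E (I (n + n₀)) ω ∧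
    cnt E (I (n + n₀)) ω ≤ K2 (n + n₀)} := ⟨_, rfl⟩
  have hBm : ∀ n, MeasurableSet (B n) := by
    intro n
    rw [hB]
    exact (measurableSet_le measurable_const (cnt_meas hm _)).inter (measurableSet_le (cnt_meas hm _) measurable_const)
  have hind : iIndepSet B μ := by
    apply group_indep hm hE (fun n => I (n + n₀))
    · intro a b hab
      show Disjoint (I (a + n₀)) (I (b + n₀))
      rcases Nat.lt_or_gt_of_ne hab with h | h
      · exact hd _ _ (by omega) (by omega)
      · exact (hd _ _ (by omega) (by omega)).symm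
    · intro n
      rw [hB]
      exact window_meas E _ _ _
  have h1 : ∑' n, μ (B n) = ⊤ := by
    by_contra h
    apply hdiv
    have h2 := ENNReal.summable_toReal h
    rw [← summable_nat_add_iff n₀]
    refine h2.congr (fun n => ?_)
    rw [hB]
    rfl
  have h2 := measure_limsup_eq_one hBm hind h1
  have h3 : ∀ᵐ ω ∂μ, ω ∈ limsup B atTop := by
    rw [ae_iff]
    have h4 : {ω | ω ∉ limsup B atTop} = (limsup B atTop)ᶜ := rfl
    rw [h4, prob_compl_eq_zero_iff]
    · exact h2
    · exact MeasurableSet.measurableSet_limsup hBm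
  filter_upwards [h3] with ω hω
  rw [mem_limsup_iff_frequently_mem] at hω
  rw [hB] at hω
  rw [Nat.frequently_atTop_iff_infinite] at hω ⊢
  intro hfin
  apply hω
  exact hfin.preimage (f := fun n => n + n₀) (fun a _ b _ h => by simpa using h)

/-- first Borel–Cantelli lemma -/
lemma ev (B : ℕ → Set Ω) (hs : Summable (fun n => μ.real (B n))) : ∀ᵐ ω ∂μ, ∀ᶠ n in atTop, ω ∉ B n := by
  apply ae_eventually_notMem
  have h1 : ∀ n, μ (B n) = ENNReal.ofReal (μ.real (B n)) := by
    intro n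
    rw [measureReal_def, ENNReal.ofReal_toReal (measure_ne_top _ _)]
  simp only [h1]
  rw [← ENNReal.ofReal_tsum_of_nonneg (fun n => measureReal_nonneg) hs]
  exact ENNReal.ofReal_ne_top

end Pool.Agent.U53.PW
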