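import Mathlib
import Pool.Agent.U53.PW.Prob

set_option autoImplicit false

/-! # Large deviations of sums of independent indicators at a logarithmic scale -/

open MeasureTheory ProbabilityTheory Filter Finset Topology

namespace Pool.Agent.U53.PW

/-- the rate function of the Poisson law -/
noncomputable def rate (lam β : ℝ) : ℝ := lam - β + β * Real.log (β / lam)

lemma rate_eq (lam : ℝ) (hlam : 0 < lam) (x : ℝ) :
    rate lam x = lam - x + (x * Real.log x - x * Real.log lam) := by
  unfold rate
  rcases eq_or_ne x 0 with h | h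
  · rw [h]
    simp
  · rw [Real.log_div h hlam.ne']
    ring

lemma rate_cont (lam : ℝ) (hlam : 0 < lam) : Continuous (rate lam) := by
  have h : rate lam = fun x => lam - x + (x * Real.log x - x * Real.log lam) := funext (rate_eq lam hlam)
  rw [h]
  exact (continuous_const.sub continuous_id).add
    (Real.continuous_mul_log.sub (continuous_id.mul continuous_const))

lemma rate_self (lam : ℝ) (hlam : 0 < lam) : rate lam lam = 0 := by
  unfold rate
  rw [div_self hlam.ne', Real.log_one]
  ring

lemma rate_convex (lam : ℝ) (hlam : 0 < lam) (β s : ℝ) (hβ : 0 ≤ β) (hs0 : 0 ≤ s) (hs1 : s ≤ 1) :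
    rate lam ((1 - s) * β + s * lam) ≤ (1 - s) * rate lam β := by
  have h1 := Real.convexOn_mul_log.2 (Set.mem_Ici.2 hβ) (Set.mem_Ici.2 hlam.le) (by linarith : 0 ≤ 1 - s) hs0
    (by ring)
  simp only [smul_eq_mul] at h1
  rw [rate_eq lam hlam, rate_eq lam hlam β]
  nlinarith

variable {Ω : Type*} [mΩ : MeasurableSpace Ω] {μ : Measure Ω} [IsProbabilityMeasure μ]

lemma tail_up {E : ℕ → Set Ω} (hm : ∀ n, MeasurableSet (E n)) (hE : iIndepSet E μ) (I : Finset ℕ)
    (lam α e L : ℝ) (hlam : 0 < lam) (hα : lam ≤ α)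
    (hS : |∑ m ∈ I, μ.real (E m) - lam * L| ≤ e * L) :
    μ.real {ω | α * L ≤ cnt E I ω} ≤ Real.exp (-(rate lam α - (α / lam - 1) * e) * L) := by
  have hx : 1 ≤ α / lam := by
    rw [le_div_iff₀ hlam]
    linarith
  have ht : 0 ≤ Real.log (α / lam) := Real.log_nonneg hx
  have h1 := measure_ge_le_exp_mul_mgf (μ := μ) (X := cnt E I) (α * L) ht (integ hm I _)
  refine h1.trans ?_
  have h2 := mgf_upper hm hE I (Real.log (α / lam))
  rw [Real.exp_log (by linarith)] at h2
  have h3 : (α / lam - 1) * ∑ m ∈ I, μ.real (E m) ≤ (α - lam) * L + (α / lam - 1) * e * L := by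
    have h4 := (abs_le.1 hS).2
    have h5 : (α / lam - 1) * ∑ m ∈ I, μ.real (E m) ≤ (α / lam - 1) * (lam * L + e * L) := by
      apply mul_le_mul_of_nonneg_left _ (by linarith)
      linarith
    refine h5.trans (le_of_eq ?_)
    field_simp
  calc Real.exp (-Real.log (α / lam) * (α * L)) * mgf (cnt E I) μ (Real.log (α / lam))
      ≤ Real.exp (-Real.log (α / lam) * (α * L)) * Real.exp ((α / lam - 1) * ∑ m ∈ I, μ.real (E m)) := by gcongr
    _ ≤ Real.exp (-Real.log (α / lam) * (α * L)) * Real.exp ((α - lam) * L + (α / lam - 1) * e * L) := by gcongr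
    _ = _ := by
        rw [← Real.exp_add]
        congr 1
        unfold rate
        ring

lemma tail_low {E : ℕ → Set Ω} (hm : ∀ n, MeasurableSet (E n)) (hE : iIndepSet E μ) (I : Finset ℕ)
    (lam α e L : ℝ) (hα0 : 0 < α) (hα : α ≤ lam)
    (hS : |∑ m ∈ I, μ.real (E m) - lam * L| ≤ e * L) :
    μ.real {ω | cnt E I ω ≤ α * L} ≤ Real.exp (-(rate lam α - (1 - α / lam) * e) * L) := by
  have hlam : 0 < lam := by linarith
  have hx : α / lam ≤ 1 := by
    rw [div_le_iff₀ hlam]
    linarith
  have hx0 : 0 < α / lam := by positivity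
  have ht : Real.log (α / lam) ≤ 0 := Real.log_nonpos hx0.le hx
  have h1 := measure_le_le_exp_mul_mgf (μ := μ) (X := cnt E I) (α * L) ht (integ hm I _)
  refine h1.trans ?_
  have h2 := mgf_upper hm hE I (Real.log (α / lam))
  rw [Real.exp_log hx0] at h2
  have h3 : (α / lam - 1) * ∑ m ∈ I, μ.real (E m) ≤ (α - lam) * L + (1 - α / lam) * e * L := by
    have h4 := (abs_le.1 hS).1
    have h5 : (α / lam - 1) * ∑ m ∈ I, μ.real (E m) ≤ (α / lam - 1) * (lam * L - e * L) := by
      apply mul_le_mul_of_nonpos_left _ (by linarith)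
      linarith
    refine h5.trans (le_of_eq ?_)
    field_simp
    ring
  calc Real.exp (-Real.log (α / lam) * (α * L)) * mgf (cnt E I) μ (Real.log (α / lam))
      ≤ Real.exp (-Real.log (α / lam) * (α * L)) * Real.exp ((α / lam - 1) * ∑ m ∈ I, μ.real (E m)) := by gcongr
    _ ≤ Real.exp (-Real.log (α / lam) * (α * L)) * Real.exp ((α - lam) * L + (1 - α / lam) * e * L) := by gcongr
    _ = _ := by
        rw [← Real.exp_add]
        congr 1
        unfold rate
        ring

lemma gain (β δ : ℝ) (hδ : 0 < δ) (hδβ : δ < β) :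
    0 < (β + δ) * Real.log ((β + δ) / β) - δ ∧ 0 < δ - (β - δ) * Real.log (β / (β - δ)) := by
  have hβ : 0 < β := by linarith
  constructor
  · have h1 : Real.log (β / (β + δ)) < β / (β + δ) - 1 := by
      apply Real.log_lt_sub_one_of_pos (by positivity)
      intro h
      rw [div_eq_one_iff_eq (by linarith)] at h
      linarith
    have h2 : Real.log ((β + δ) / β) = -Real.log (β / (β + δ)) := by
      rw [← Real.log_inv, inv_div]
    rw [h2]
    have h3 : (β + δ) * (β / (β + δ) - 1) = -δ := by
      have : β + δ ≠ 0 := by linarith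
      field_simp
      ring
    nlinarith
  · have h0 : 0 < β - δ := by linarith
    have h1 : Real.log (β / (β - δ)) < β / (β - δ) - 1 := by
      apply Real.log_lt_sub_one_of_pos (by positivity)
      intro h
      rw [div_eq_one_iff_eq (by linarith)] at h
      linarith
    have h3 : (β - δ) * (β / (β - δ) - 1) = δ := by
      field_simp
      ring
    nlinarith

lemma win_low {E : ℕ → Set Ω} (hm : ∀ n, MeasurableSet (E n)) (hE : iIndepSet E μ) (I : Finset ℕ)
    (lam β δ ε A e η L : ℝ) (hlam : 0 < lam) (hδ : 0 < δ) (hδβ : δ < β) (hA : A = (β + δ) / lam + 1)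
    (he : 0 ≤ e) (heA : A * e ≤ ε / 2) (he1 : e ≤ 1) (hη : ∀ m ∈ I, μ.real (E m) ≤ η) (hη0 : 0 ≤ η)
    (hAη : A * η ≤ 1 / 3) (hAη2 : A ^ 2 * η * (lam + 1) ≤ ε / 2) (hL : 0 < L)
    (hS : |∑ m ∈ I, μ.real (E m) - lam * L| ≤ e * L)
    (hg1 : 4 * ε ≤ (β + δ) * Real.log ((β + δ) / β) - δ)
    (hg2 : 4 * ε ≤ δ - (β - δ) * Real.log (β / (β - δ))) (hεL : 2 ≤ ε * L) :
    1 / 2 * Real.exp (-(rate lam β + ε + |Real.log (β / lam)| * δ) * L) ≤
      μ.real {ω | (β - δ) * L ≤ cnt E I ω ∧ cnt E I ω ≤ (β + δ) * L} := by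
  have hβ : 0 < β := by linarith
  have hβδ : 0 < β - δ := by linarith
  have hA0 : 0 < A := by
    rw [hA]
    positivity
  obtain ⟨S, hSd⟩ : ∃ S, S = ∑ m ∈ I, μ.real (E m) := ⟨_, rfl⟩
  rw [← hSd] at hS
  have hS1 := (abs_le.1 hS).1
  have hS2 := (abs_le.1 hS).2
  have hS0 : 0 ≤ S := by
    rw [hSd]
    exact sum_nonneg fun m _ => measureReal_nonneg
  have hSL : S ≤ (lam + 1) * L := by nlinarith
  -- the factors
  have habs : ∀ x : ℝ, 0 < x → x ≤ β + δ → |x / lam - 1| ≤ A := by
    intro x hx hx2
    have h1 : x / lam ≤ (β + δ) / lam := by gcongr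
    have h2 : 0 < x / lam := by positivity
    rw [abs_le, hA]
    have h3 : 0 < (β + δ) / lam := by positivity
    constructor <;> linarith
  have hup : ∀ x : ℝ, 0 < x → x ≤ β + δ → mgf (cnt E I) μ (Real.log (x / lam)) ≤ Real.exp ((x - lam + ε) * L) := by
    intro x hx hx2
    have h2 := mgf_upper hm hE I (Real.log (x / lam))
    rw [Real.exp_log (by positivity), ← hSd] at h2
    refine h2.trans (Real.exp_le_exp.2 ?_)
    have h3 : (x / lam - 1) * (S - lam * L) ≤ A * (e * L) := by
      calc (x / lam - 1) * (S - lam * L) ≤ |(x / lam - 1) * (S - lam * L)| := le_abs_self _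
        _ = |x / lam - 1| * |S - lam * L| := abs_mul _ _
        _ ≤ A * (e * L) := by
            apply mul_le_mul (habs x hx hx2) hS (abs_nonneg _) hA0.le
    have h4 : (x / lam - 1) * (lam * L) = (x - lam) * L := by
      field_simp
    have h5 : A * (e * L) ≤ ε / 2 * L := by
      rw [← mul_assoc]
      gcongr
    have h6 : 0 ≤ ε / 2 * L := by nlinarith
    nlinarith
  have hlo : Real.exp ((β - lam - ε) * L) ≤ mgf (cnt E I) μ (Real.log (β / lam)) := by
    have hab := habs β hβ (by linarith)
    have h2 := mgf_lower hm hE I (Real.log (β / lam)) η hη (by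
      rw [Real.exp_log (by positivity)]
      exact (mul_le_mul_of_nonneg_right hab hη0).trans hAη)
    rw [Real.exp_log (by positivity), ← hSd] at h2
    refine le_trans (Real.exp_le_exp.2 ?_) h2
    have h3 : -(A * (e * L)) ≤ (β / lam - 1) * (S - lam * L) := by
      have : |(β / lam - 1) * (S - lam * L)| ≤ A * (e * L) := by
        rw [abs_mul]
        exact mul_le_mul hab hS (abs_nonneg _) hA0.le
      exact (abs_le.1 this).1
    have h4 : (β / lam - 1) * (lam * L) = (β - lam) * L := by
      field_simp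
    have h5 : A * (e * L) ≤ ε / 2 * L := by
      rw [← mul_assoc]
      gcongr
    have h6 : (β / lam - 1) ^ 2 * η * S ≤ ε / 2 * L := by
      have k1 : (β / lam - 1) ^ 2 ≤ A ^ 2 := by
        rw [← sq_abs (β / lam - 1)]
        exact pow_le_pow_left₀ (abs_nonneg _) hab 2
      calc (β / lam - 1) ^ 2 * η * S ≤ A ^ 2 * η * ((lam + 1) * L) := by gcongr
        _ = A ^ 2 * η * (lam + 1) * L := by ring
        _ ≤ ε / 2 * L := by gcongr
    nlinarith
  -- the window
  have ht1 : Real.log (β / lam) ≤ Real.log ((β + δ) / lam) := by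
    apply Real.log_le_log (by positivity)
    gcongr
    linarith
  have ht2 : Real.log ((β - δ) / lam) ≤ Real.log (β / lam) := by
    apply Real.log_le_log (by positivity)
    gcongr
    linarith
  have hw := window_low (μ := μ) (cnt E I) (cnt_meas hm I) (integ hm I) (Real.log (β / lam))
    (Real.log ((β + δ) / lam)) (Real.log ((β - δ) / lam)) ((β - δ) * L) ((β + δ) * L) ht1 ht2
  have c1 : Real.exp ((Real.log (β / lam) - Real.log ((β + δ) / lam)) * ((β + δ) * L)) *
      mgf (cnt E I) μ (Real.log ((β + δ) / lam)) ≤ Real.exp ((β - lam - 3 * ε) * L) := by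
    have h1 := hup (β + δ) (by linarith) le_rfl
    calc _ ≤ Real.exp ((Real.log (β / lam) - Real.log ((β + δ) / lam)) * ((β + δ) * L)) *
          Real.exp ((β + δ - lam + ε) * L) := by gcongr
      _ = Real.exp ((Real.log (β / lam) - Real.log ((β + δ) / lam)) * ((β + δ) * L) + (β + δ - lam + ε) * L) := by
          rw [Real.exp_add]
      _ ≤ _ := by
          apply Real.exp_le_exp.2
          have h2 : Real.log (β / lam) - Real.log ((β + δ) / lam) = -Real.log ((β + δ) / β) := by
            rw [Real.log_div hβ.ne' hlam.ne', Real.log_div (by linarith) hlam.ne', Real.log_div (by linarith) hβ.ne']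
            ring
          rw [h2]
          nlinarith
  have c2 : Real.exp ((Real.log (β / lam) - Real.log ((β - δ) / lam)) * ((β - δ) * L)) *
      mgf (cnt E I) μ (Real.log ((β - δ) / lam)) ≤ Real.exp ((β - lam - 3 * ε) * L) := by
    have h1 := hup (β - δ) hβδ (by linarith)
    calc _ ≤ Real.exp ((Real.log (β / lam) - Real.log ((β - δ) / lam)) * ((β - δ) * L)) *
          Real.exp ((β - δ - lam + ε) * L) := by gcongr
      _ = Real.exp ((Real.log (β / lam) - Real.log ((β - δ) / lam)) * ((β - δ) * L) + (β - δ - lam + ε) * L) := by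
          rw [Real.exp_add]
      _ ≤ _ := by
          apply Real.exp_le_exp.2
          have h2 : Real.log (β / lam) - Real.log ((β - δ) / lam) = Real.log (β / (β - δ)) := by
            rw [Real.log_div hβ.ne' hlam.ne', Real.log_div hβδ.ne' hlam.ne', Real.log_div hβ.ne' hβδ.ne']
            ring
          rw [h2]
          nlinarith
  have c3 : 4 * Real.exp ((β - lam - 3 * ε) * L) ≤ Real.exp ((β - lam - ε) * L) := by
    have h1 : (β - lam - ε) * L = 2 * (ε * L) + (β - lam - 3 * ε) * L := by ring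
    rw [h1, Real.exp_add]
    apply mul_le_mul_of_nonneg_right _ (Real.exp_pos _).le
    have h2 := Real.add_one_le_exp (2 * (ε * L))
    linarith
  obtain ⟨P, hP⟩ : ∃ P, P = μ.real {ω | (β - δ) * L ≤ cnt E I ω ∧ cnt E I ω ≤ (β + δ) * L} := ⟨_, rfl⟩
  rw [← hP] at hw ⊢
  have hP0 : 0 ≤ P := by
    rw [hP]
    exact measureReal_nonneg
  have hmax : max (Real.log (β / lam) * ((β - δ) * L)) (Real.log (β / lam) * ((β + δ) * L)) ≤
      (β * Real.log (β / lam) + |Real.log (β / lam)| * δ) * L := by
    have h1 := abs_le.1 (le_refl |Real.log (β / lam)|)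
    have h2 : 0 < δ * L := by positivity
    apply max_le
    · nlinarith [mul_le_mul_of_nonneg_right h1.1 h2.le]
    · nlinarith [mul_le_mul_of_nonneg_right h1.2 h2.le]
  have h5 : Real.exp ((β - lam - ε) * L) ≤ 2 * (Real.exp ((β * Real.log (β / lam) + |Real.log (β / lam)| * δ) * L) * P) := by
    have h6 : Real.exp (max (Real.log (β / lam) * ((β - δ) * L)) (Real.log (β / lam) * ((β + δ) * L))) * P ≤
        Real.exp ((β * Real.log (β / lam) + |Real.log (β / lam)| * δ) * L) * P := by gcongr
    linarith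
  have h7 : Real.exp (-(rate lam β + ε + |Real.log (β / lam)| * δ) * L) *
      Real.exp ((β * Real.log (β / lam) + |Real.log (β / lam)| * δ) * L) = Real.exp ((β - lam - ε) * L) := by
    rw [← Real.exp_add]
    congr 1
    unfold rate
    ring
  have h8 := Real.exp_pos ((β * Real.log (β / lam) + |Real.log (β / lam)| * δ) * L)
  rw [← h7] at h5
  have h9 : Real.exp (-(rate lam β + ε + |Real.log (β / lam)| * δ) * L) ≤ 2 * P := by
    by_contra h
    rw [not_le] at h
    nlinarith
  linarith

end Pool.Agent.U53.PW
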