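import Mathlib
import Pool.Agent.U839.Sv.Fin
import Pool.Agent.Helper601.PNT

set_option autoImplicit false

/-! # Windows behind the powers `b ^ n`, of length proportional to the `n`-th prime -/

open Filter Finset Topology

namespace Pool.Agent.U53.PW

open Pool.Agent.U839.Sv (W W_mono W_pos fT fT_nonneg fT_le rho_small dens sub_pow sum_window exists_R)
open Pool.Agent.U839.Thin (tlog)

/-- the `n`-th prime -/
noncomputable def pn (n : ℕ) : ℕ := Nat.nth Nat.Prime (n - 1)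

lemma pn_count (n : ℕ) (hn : 1 ≤ n) : Nat.primeCounting (pn n) = n := by
  unfold pn
  rw [Nat.primeCounting, Nat.primeCounting', Nat.count_succ, if_pos (Nat.prime_nth_prime _),
    Nat.count_nth_of_infinite Nat.infinite_setOf_prime]
  omega

lemma pn_ge (n : ℕ) : n ≤ pn n := by
  unfold pn
  have := Nat.add_two_le_nth_prime (n - 1)
  omega

lemma pn_tendsto : Tendsto (fun n : ℕ => (pn n : ℝ)) atTop atTop :=
  tendsto_natCast_atTop_atTop.comp (tendsto_atTop_mono pn_ge tendsto_id)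

lemma loglog : Tendsto (fun x : ℝ => Real.log x / x) atTop (𝓝 0) := by
  have := (isLittleO_log_rpow_atTop (r := 1) (by norm_num)).tendsto_div_nhds_zero
  simpa using this

/-- `p_n ∼ n log n` -/
theorem pn_asymp : Tendsto (fun n : ℕ => (pn n : ℝ) / (n * Real.log n)) atTop (𝓝 1) := by
  have h1 : Tendsto (fun n : ℕ => (n : ℝ) * Real.log (pn n) / pn n) atTop (𝓝 1) := by
    have h := Pool.Agent.Helper601.PNT.pi_tendsto.comp pn_tendsto
    refine h.congr' ?_
    filter_upwards [eventually_ge_atTop 1] with n hn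
    simp only [Function.comp_apply, Nat.floor_natCast]
    rw [pn_count n hn]
  have hL : Tendsto (fun n : ℕ => Real.log (pn n : ℝ)) atTop atTop := Real.tendsto_log_atTop.comp pn_tendsto
  have h2 : Tendsto (fun n : ℕ => Real.log ((n : ℝ) * Real.log (pn n) / pn n)) atTop (𝓝 0) := by
    have := (Real.continuousAt_log one_ne_zero).tendsto.comp h1
    rwa [Real.log_one] at this
  have h3 : Tendsto (fun n : ℕ => Real.log n / Real.log (pn n)) atTop (𝓝 1) := by
    have k1 : Tendsto (fun n : ℕ => Real.log ((n : ℝ) * Real.log (pn n) / pn n) / Real.log (pn n)) atTop (𝓝 0) :=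
      h2.div_atTop hL
    have k2 : Tendsto (fun n : ℕ => Real.log (Real.log (pn n)) / Real.log (pn n)) atTop (𝓝 0) := loglog.comp hL
    have k3 := (k1.sub k2).add_const 1
    rw [sub_zero, zero_add] at k3
    refine k3.congr' ?_
    filter_upwards [hL.eventually_gt_atTop 0, pn_tendsto.eventually_gt_atTop 0, eventually_ge_atTop 1] with n g1 g2 g3
    have hn : (0 : ℝ) < n := by exact_mod_cast g3
    rw [Real.log_div (by positivity) g2.ne', Real.log_mul hn.ne' g1.ne']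
    field_simp
    ring
  have h4 := (h1.mul h3).inv₀ (by norm_num)
  rw [one_mul, inv_one] at h4
  refine h4.congr' ?_
  filter_upwards [hL.eventually_gt_atTop 0, pn_tendsto.eventually_gt_atTop 0, eventually_ge_atTop 2] with n g1 g2 g3
  have hn : (1 : ℝ) < n := by exact_mod_cast g3
  have hn2 : 0 < Real.log (n : ℝ) := Real.log_pos hn
  have hn0 : (0 : ℝ) < n := by linarith
  field_simp

/-- the length of the windows -/
noncomputable def KK (C : ℝ) (n : ℕ) : ℕ := ⌊C * pn n⌋₊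

lemma KK_asymp (C : ℝ) (hC : 0 < C) : Tendsto (fun n : ℕ => (KK C n : ℝ) / (n * Real.log n)) atTop (𝓝 C) := by
  have h1 := pn_asymp.const_mul C
  rw [mul_one] at h1
  have hnl : Tendsto (fun n : ℕ => (n : ℝ) * Real.log n) atTop atTop :=
    tendsto_natCast_atTop_atTop.atTop_mul_atTop₀ tlog
  have h2 : Tendsto (fun n : ℕ => C * ((pn n : ℝ) / (n * Real.log n)) - 1 / (n * Real.log n)) atTop (𝓝 C) := by
    have := h1.sub ((tendsto_const_nhds (x := (1 : ℝ))).div_atTop hnl)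
    rwa [sub_zero] at this
  refine tendsto_of_tendsto_of_tendsto_of_le_of_le' h2 h1 ?_ ?_
  · filter_upwards [hnl.eventually_gt_atTop 0] with n g
    rw [mul_div_assoc', ← sub_div]
    apply div_le_div_of_nonneg_right _ g.le
    unfold KK
    exact (Nat.sub_one_lt_floor _).le
  · filter_upwards [hnl.eventually_gt_atTop 0] with n g
    rw [mul_div_assoc']
    apply div_le_div_of_nonneg_right _ g.le
    exact Nat.floor_le (by positivity)

lemma KK_small (C : ℝ) (hC : 0 < C) : ∀ᶠ n : ℕ in atTop, KK C n < 2 ^ n := by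
  have h1 := (KK_asymp C hC).eventually (gt_mem_nhds (show C < C + 1 by linarith))
  have h2 : Tendsto (fun n : ℕ => (n : ℝ) ^ 2 / 2 ^ n) atTop (𝓝 0) :=
    tendsto_pow_const_div_const_pow_of_one_lt 2 one_lt_two
  filter_upwards [h1, h2.eventually (gt_mem_nhds (show (0 : ℝ) < 1 / (C + 1) by positivity)),
    eventually_ge_atTop 2] with n g1 g2 g3
  have hn : (1 : ℝ) < n := by exact_mod_cast g3
  have hn2 : 0 < Real.log (n : ℝ) := Real.log_pos hn
  have hn3 : Real.log (n : ℝ) ≤ n := (Real.log_le_sub_one_of_pos (by linarith)).trans (by linarith)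
  rw [div_lt_iff₀ (by positivity)] at g1
  rw [div_lt_div_iff₀ (by positivity) (by positivity)] at g2
  have h3 : (KK C n : ℝ) < 2 ^ n := by
    calc (KK C n : ℝ) < (C + 1) * (n * Real.log n) := g1
      _ ≤ (C + 1) * (n * n) := by gcongr
      _ < 2 ^ n := by nlinarith
  exact_mod_cast h3

/-- the window `[b ^ n, b ^ n + C p_n]` -/
noncomputable def Ib (b : ℕ) (C : ℝ) (n : ℕ) : Finset ℕ := Icc (b ^ n) (b ^ n + KK C n)

lemma mem_Ib {b : ℕ} {C : ℝ} (hC : 0 < C) {n m : ℕ} :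
    m ∈ Ib b C n ↔ b ^ n ≤ m ∧ (m : ℝ) ≤ (b : ℝ) ^ n + C * pn n := by
  unfold Ib KK
  rw [mem_Icc]
  refine and_congr_right fun h => ?_
  have h1 : m ≤ b ^ n + ⌊C * (pn n : ℝ)⌋₊ ↔ m - b ^ n ≤ ⌊C * (pn n : ℝ)⌋₊ := by omega
  rw [h1, Nat.le_floor_iff (by positivity), Nat.cast_sub h]
  push_cast
  constructor <;> intro h2 <;> linarith

lemma Ib_size (b : ℕ) (hb : 2 ≤ b) (C : ℝ) (hC : 0 < C) : ∀ᶠ n : ℕ in atTop, ∀ m ∈ Ib b C n,
    b ^ n ≤ m ∧ m < b ^ (n + 1) := by
  filter_upwards [KK_small C hC] with n h1 m hm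
  unfold Ib at hm
  rw [mem_Icc] at hm
  refine ⟨hm.1, ?_⟩
  have h2 : 2 ^ n ≤ b ^ n := Nat.pow_le_pow_left hb n
  have h3 : b ^ n * 2 ≤ b ^ (n + 1) := by
    rw [pow_succ]
    exact Nat.mul_le_mul_left _ hb
  omega

lemma Ib_disj (b : ℕ) (hb : 2 ≤ b) (C : ℝ) (hC : 0 < C) : ∃ n₀ : ℕ, ∀ a c, n₀ ≤ a → a < c →
    Disjoint (Ib b C a) (Ib b C c) := by
  obtain ⟨n₀, hn₀⟩ := eventually_atTop.1 (Ib_size b hb C hC)
  refine ⟨n₀, fun a c ha hac => ?_⟩
  rw [Finset.disjoint_left]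
  intro m h1 h2
  have h3 := (hn₀ a ha m h1).2
  have h4 := (hn₀ c (by omega) m h2).1
  have h5 : b ^ (a + 1) ≤ b ^ c := Nat.pow_le_pow_right (by omega) hac
  omega

lemma pow_tendsto (b : ℕ) (hb : 2 ≤ b) : Tendsto (fun n : ℕ => b ^ n) atTop atTop :=
  tendsto_pow_atTop_atTop_of_one_lt (by omega)

/-- the sieve weights in the window -/
lemma fT_sum (T : ℕ → ℕ) (hT : Monotone T)
    (hTs : ∀ θ : ℝ, 0 < θ → ∀ᶠ n : ℕ in atTop, (T n : ℝ) ≤ (Real.log n) ^ θ) (b : ℕ) (hb : 2 ≤ b)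
    (C : ℝ) (hC : 0 < C) (ε : ℝ) (hε : 0 < ε) : ∀ᶠ n : ℕ in atTop,
      |∑ m ∈ Ioc (b ^ n) (b ^ n + KK C n), fT T m - KK C n| ≤ ε * KK C n := by
  obtain ⟨R, hR, hRδ⟩ := exists_R (ε / 2) (by positivity)
  obtain ⟨D, hD⟩ : ∃ D : ℕ, D = 8 * R + 18 := ⟨_, rfl⟩
  have hD0 : (0 : ℝ) < D := by
    rw [hD]
    positivity
  have hlb : 0 < Real.log b := Real.log_pos (by exact_mod_cast (by omega : 1 < b))
  have hpt : Tendsto (fun n : ℕ => b ^ (n + 1)) atTop atTop := (pow_tendsto b hb).comp (tendsto_add_atTop_nat 1)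
  have e1 := hpt.eventually (hTs (1 / (2 * D)) (by positivity))
  have e2 : Tendsto (fun n : ℕ => (3 : ℝ) ^ D * (((n : ℝ) + 1) * Real.log b) ^ (1 / 2 : ℝ) / n) atTop (𝓝 0) := by
    have k1 : Tendsto (fun n : ℕ => (3 : ℝ) ^ D * ((((n : ℝ) + 1) * Real.log b / n) ^ (1 / 2 : ℝ) *
        ((n : ℝ) ^ (1 / 2 : ℝ))⁻¹)) atTop (𝓝 ((3 : ℝ) ^ D * ((Real.log b) ^ (1 / 2 : ℝ) * 0))) := by
      apply Tendsto.const_mul
      apply Tendsto.mul
      · apply Tendsto.rpow_const _ (Or.inl hlb.ne')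
        have k2 : Tendsto (fun n : ℕ => (1 + 1 / (n : ℝ)) * Real.log b) atTop (𝓝 ((1 + 0) * Real.log b)) :=
          (tendsto_const_nhds.add tendsto_one_div_atTop_nhds_zero_nat).mul_const _
        rw [add_zero, one_mul] at k2
        refine k2.congr' ?_
        filter_upwards [eventually_ge_atTop 1] with n hn
        have : (0 : ℝ) < n := by exact_mod_cast hn
        field_simp
      · exact tendsto_inv_atTop_zero.comp ((tendsto_rpow_atTop (by norm_num)).comp tendsto_natCast_atTop_atTop)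
    rw [mul_zero, mul_zero] at k1
    refine k1.congr' ?_
    filter_upwards [eventually_ge_atTop 1] with n hn
    have hn0 : (0 : ℝ) < n := by exact_mod_cast hn
    rw [Real.div_rpow (by positivity) hn0.le, mul_div_assoc]
    congr 1
    have : (n : ℝ) ^ (1 / 2 : ℝ) * (n : ℝ) ^ (1 / 2 : ℝ) = n := by
      rw [← Real.rpow_add hn0]
      norm_num
    rw [div_mul_eq_mul_div, ← div_eq_mul_inv, div_div, this]
  have e3 := (KK_asymp C hC).eventually (lt_mem_nhds (show C / 2 < C by linarith))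
  filter_upwards [e1, e2.eventually (gt_mem_nhds (show (0 : ℝ) < ε / 2 * (C / 2) by positivity)), e3, KK_small C hC,
    tlog.eventually_ge_atTop 1, eventually_ge_atTop 1,
    (tendsto_natCast_atTop_atTop (R := ℝ)).eventually_ge_atTop (1 / Real.log b)] with n g1 g2 g3 g4 g5 g6 g7
  have hn0 : (0 : ℝ) < n := by exact_mod_cast g6
  have h1 := sum_window R hR T hT (b ^ n) (KK C n) (T (b ^ (n + 1))) (hT (by
    have h2 : 2 ^ n ≤ b ^ n := Nat.pow_le_pow_left hb n
    have h3 : b ^ n * 2 ≤ b ^ (n + 1) := by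
      rw [pow_succ]
      exact Nat.mul_le_mul_left _ hb
    omega))
  rw [← hD] at h1
  have hl : Real.log ((b ^ (n + 1) : ℕ) : ℝ) = ((n : ℝ) + 1) * Real.log b := by
    push_cast
    rw [Real.log_pow]
    push_cast
    ring
  rw [hl] at g1
  have hl1 : 1 ≤ ((n : ℝ) + 1) * Real.log b := by
    rw [div_le_iff₀ hlb] at g7
    nlinarith
  have h2 : ((T (b ^ (n + 1)) : ℝ) + 2) ^ D ≤ 3 ^ D * (((n : ℝ) + 1) * Real.log b) ^ (1 / 2 : ℝ) := by
    have h4 : (1 : ℝ) ≤ (((n : ℝ) + 1) * Real.log b) ^ (1 / (2 * (D : ℝ))) :=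
      Real.one_le_rpow hl1 (by positivity)
    calc ((T (b ^ (n + 1)) : ℝ) + 2) ^ D ≤ (3 * (((n : ℝ) + 1) * Real.log b) ^ (1 / (2 * (D : ℝ)))) ^ D := by
          apply pow_le_pow_left₀ (by positivity)
          linarith
      _ = 3 ^ D * (((n : ℝ) + 1) * Real.log b) ^ (1 / 2 : ℝ) := by
          rw [mul_pow, ← Real.rpow_natCast ((((n : ℝ) + 1) * Real.log b) ^ (1 / (2 * (D : ℝ)))) D,
            ← Real.rpow_mul (by linarith)]
          congr 2
          field_simp
  have h3 : 3 ^ D * (((n : ℝ) + 1) * Real.log b) ^ (1 / 2 : ℝ) ≤ ε / 2 * KK C n := by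
    rw [div_lt_iff₀ hn0] at g2
    rw [lt_div_iff₀ (by positivity)] at g3
    have h5 : C / 2 * n ≤ KK C n := by
      have : C / 2 * n ≤ C / 2 * (n * Real.log n) := by
        apply mul_le_mul_of_nonneg_left _ (by positivity)
        nlinarith
      linarith
    calc 3 ^ D * (((n : ℝ) + 1) * Real.log b) ^ (1 / 2 : ℝ) ≤ ε / 2 * (C / 2) * n := g2.le
      _ = ε / 2 * (C / 2 * n) := by ring
      _ ≤ ε / 2 * KK C n := by gcongr
  have h4 : (2 : ℝ) ^ 25 * (1 / 2) ^ (2 * R) * KK C n ≤ ε / 2 * KK C n := by gcongr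
  rw [abs_le] at h1 ⊢
  constructor <;> linarith [h1.1, h1.2]

/-- the probabilities in the window -/
theorem q_sum (T : ℕ → ℕ) (hT : Monotone T)
    (hTs : ∀ θ : ℝ, 0 < θ → ∀ᶠ n : ℕ in atTop, (T n : ℝ) ≤ (Real.log n) ^ θ) (q : ℕ → ℝ)
    (hq : ∀ m : ℕ, q m = min 1 (fT T m / Real.log m)) (b : ℕ) (hb : 2 ≤ b)
    (C : ℝ) (hC : 0 < C) (ε : ℝ) (hε : 0 < ε) : ∀ᶠ n : ℕ in atTop,
      |∑ m ∈ Ib b C n, q m - C / Real.log b * Real.log n| ≤ ε * Real.log n := by
  have hlb : 0 < Real.log b := Real.log_pos (by exact_mod_cast (by omega : 1 < b))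
  obtain ⟨lam, hlam⟩ : ∃ lam, lam = C / Real.log b := ⟨_, rfl⟩
  have hlam0 : 0 < lam := by
    rw [hlam]
    positivity
  obtain ⟨η, hη⟩ : ∃ η, η = ε / (2 * lam) := ⟨_, rfl⟩
  have hη0 : 0 < η := by
    rw [hη]
    positivity
  have hηl : η * lam = ε / 2 := by
    rw [hη]
    field_simp
  have hsp := sub_pow T 1 (hTs 1 one_pos)
  obtain ⟨n₁, hn₁⟩ := eventually_atTop.1 (dens T hsp 1 one_pos)
  have hK := KK_asymp C hC
  have hup : Tendsto (fun n : ℕ => 1 / Real.log n + (1 + η) * ((KK C n : ℝ) / (n * Real.log n) / Real.log b)) atTop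
      (𝓝 (0 + (1 + η) * (C / Real.log b))) :=
    (tendsto_const_nhds.div_atTop tlog).add ((hK.div_const _).const_mul _)
  have hlo : Tendsto (fun n : ℕ => (1 - η) * ((KK C n : ℝ) / (n * Real.log n) / Real.log b) * ((n : ℝ) / (n + 1))) atTop
      (𝓝 ((1 - η) * (C / Real.log b) * 1)) :=
    ((hK.div_const _).const_mul _).mul (tendsto_natCast_div_add_atTop (1 : ℝ))
  rw [← hlam, zero_add] at hup
  rw [← hlam, mul_one] at hlo
  filter_upwards [fT_sum T hT hTs b hb C hC η hη0, Ib_size b hb C hC, tlog.eventually_ge_atTop 1,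
    eventually_ge_atTop 1, (pow_tendsto b hb).eventually_ge_atTop n₁,
    hup.eventually (gt_mem_nhds (show (1 + η) * lam < lam + ε by nlinarith)),
    hlo.eventually (lt_mem_nhds (show lam - ε < (1 - η) * lam by nlinarith))] with n g1 g2 g3 g4 g5 g6 g7
  have hn0 : (0 : ℝ) < n := by exact_mod_cast g4
  have hL0 : 0 < Real.log (n : ℝ) := by linarith
  have hb0 : (0 : ℝ) < b := by exact_mod_cast (by omega : 0 < b)
  have hlog : ∀ m ∈ Ib b C n, (n : ℝ) * Real.log b ≤ Real.log m ∧ Real.log m ≤ ((n : ℝ) + 1) * Real.log b := by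
    intro m hm
    obtain ⟨k1, k2⟩ := g2 m hm
    have k3 : (b : ℝ) ^ n ≤ m := by exact_mod_cast k1
    have k4 : (m : ℝ) ≤ (b : ℝ) ^ (n + 1) := by exact_mod_cast k2.le
    have k5 : (0 : ℝ) < (b : ℝ) ^ n := by positivity
    constructor
    · have := Real.log_le_log k5 k3
      rwa [Real.log_pow] at this
    · have := Real.log_le_log (lt_of_lt_of_le k5 k3) k4
      rw [Real.log_pow] at this
      push_cast at this
      exact this
  have hsplit : Ib b C n = insert (b ^ n) (Ioc (b ^ n) (b ^ n + KK C n)) := by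
    unfold Ib
    ext m
    simp only [mem_Icc, mem_insert, mem_Ioc]
    omega
  have hnot : b ^ n ∉ Ioc (b ^ n) (b ^ n + KK C n) := by simp
  have hsub : ∀ m ∈ Ioc (b ^ n) (b ^ n + KK C n), m ∈ Ib b C n := by
    intro m hm
    rw [hsplit]
    exact mem_insert_of_mem hm
  have hqv : ∀ m ∈ Ioc (b ^ n) (b ^ n + KK C n), q m = fT T m / Real.log m := by
    intro m hm
    rw [hq m, min_eq_right (hn₁ m (g5.trans ((mem_Ioc.1 hm).1.le)))]
  have hq0 : 0 ≤ q (b ^ n) ∧ q (b ^ n) ≤ 1 := by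
    rw [hq]
    exact ⟨le_min zero_le_one (div_nonneg (fT_nonneg T _) (Real.log_natCast_nonneg _)), min_le_left _ _⟩
  rw [hsplit, sum_insert hnot, sum_congr rfl hqv]
  have u1 : ∑ m ∈ Ioc (b ^ n) (b ^ n + KK C n), fT T m / Real.log m ≤
      (∑ m ∈ Ioc (b ^ n) (b ^ n + KK C n), fT T m) / (n * Real.log b) := by
    rw [sum_div]
    apply sum_le_sum
    intro m hm
    apply div_le_div_of_nonneg_left (fT_nonneg T m) (by positivity) (hlog m (hsub m hm)).1
  have u2 : (∑ m ∈ Ioc (b ^ n) (b ^ n + KK C n), fT T m) / (((n : ℝ) + 1) * Real.log b) ≤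
      ∑ m ∈ Ioc (b ^ n) (b ^ n + KK C n), fT T m / Real.log m := by
    rw [sum_div]
    apply sum_le_sum
    intro m hm
    have h5 := hlog m (hsub m hm)
    apply div_le_div_of_nonneg_left (fT_nonneg T m) (lt_of_lt_of_le (by positivity) h5.1) h5.2
  have g1' := abs_le.1 g1
  have u3 : (∑ m ∈ Ioc (b ^ n) (b ^ n + KK C n), fT T m) / (n * Real.log b) ≤
      (1 + η) * ((KK C n : ℝ) / (n * Real.log n) / Real.log b) * Real.log n := by
    have : (1 + η) * ((KK C n : ℝ) / (n * Real.log n) / Real.log b) * Real.log n =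
        ((1 + η) * KK C n) / (n * Real.log b) := by
      field_simp
    rw [this]
    apply div_le_div_of_nonneg_right _ (by positivity)
    linarith [g1'.2]
  have u4 : (1 - η) * ((KK C n : ℝ) / (n * Real.log n) / Real.log b) * ((n : ℝ) / (n + 1)) * Real.log n ≤
      (∑ m ∈ Ioc (b ^ n) (b ^ n + KK C n), fT T m) / (((n : ℝ) + 1) * Real.log b) := by
    have : (1 - η) * ((KK C n : ℝ) / (n * Real.log n) / Real.log b) * ((n : ℝ) / (n + 1)) * Real.log n =
        ((1 - η) * KK C n) / (((n : ℝ) + 1) * Real.log b) := by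
      field_simp
    rw [this]
    apply div_le_div_of_nonneg_right _ (by positivity)
    linarith [g1'.1]
  have u5 : 1 + (1 + η) * ((KK C n : ℝ) / (n * Real.log n) / Real.log b) * Real.log n ≤ (lam + ε) * Real.log n := by
    have : (1 / Real.log n + (1 + η) * ((KK C n : ℝ) / (n * Real.log n) / Real.log b)) * Real.log n ≤
        (lam + ε) * Real.log n := by gcongr
    rw [add_mul, one_div, inv_mul_cancel₀ hL0.ne'] at this
    exact this
  have u6 : (lam - ε) * Real.log n ≤ (1 - η) * ((KK C n : ℝ) / (n * Real.log n) / Real.log b) * ((n : ℝ) / (n + 1)) *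
      Real.log n := by gcongr
  rw [← hlam, abs_le]
  constructor
  · linarith [hq0.1]
  · linarith [hq0.2]

/-- the probabilities are small -/
theorem q_small (T : ℕ → ℕ)
    (hTs : ∀ θ : ℝ, 0 < θ → ∀ᶠ n : ℕ in atTop, (T n : ℝ) ≤ (Real.log n) ^ θ) (q : ℕ → ℝ)
    (hq : ∀ m : ℕ, q m = min 1 (fT T m / Real.log m)) (b : ℕ) (hb : 2 ≤ b)
    (C : ℝ) (η : ℝ) (hη : 0 < η) : ∀ᶠ n : ℕ in atTop, ∀ m ∈ Ib b C n, q m ≤ η := by
  have hsp := sub_pow T 1 (hTs 1 one_pos)
  obtain ⟨n₁, hn₁⟩ := eventually_atTop.1 (dens T hsp η hη)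
  filter_upwards [(pow_tendsto b hb).eventually_ge_atTop n₁] with n g m hm
  rw [hq m]
  refine (min_le_right _ _).trans (hn₁ m (g.trans ?_))
  unfold Ib at hm
  exact (mem_Icc.1 hm).1

end Pool.Agent.U53.PW
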