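import Mathlib
import Pool.Agent.U53.PW.Ld
import Pool.Agent.U53.PW.Win
import Pool.Agent.U746.GM.Prob

set_option autoImplicit false

/-! # Chosen numbers behind the powers `b ^ n`: limit points -/

open MeasureTheory ProbabilityTheory Filter Finset Topology

namespace Pool.Agent.U53.PW

open Pool.Agent.U839.Thin (tlog)

variable {Ω : Type*} [mΩ : MeasurableSpace Ω] {μ : Measure Ω} [IsProbabilityMeasure μ]

lemma not_summable_harm {f : ℕ → ℝ} (c : ℝ) (hc : 0 < c) (h : ∀ᶠ n : ℕ in atTop, c * (n : ℝ)⁻¹ ≤ f n) :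
    ¬ Summable f := by
  intro hs
  have h1 : Summable (fun n : ℕ => c * (n : ℝ)⁻¹) := by
    refine Summable.of_norm_bounded_eventually_nat hs ?_
    filter_upwards [h] with n hn
    rw [Real.norm_of_nonneg (by positivity)]
    exact hn
  have h2 := (summable_mul_left_iff hc.ne').1 h1
  exact Real.not_summable_natCast_inv h2

/-- windows of the probabilities: the abstract hypothesis -/
structure Reg (E : ℕ → Set Ω) (μ : Measure Ω) (I : ℕ → Finset ℕ) (lam : ℝ) : Prop where
  meas : ∀ n, MeasurableSet (E n)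
  indep : iIndepSet E μ
  disj : ∃ n₀ : ℕ, ∀ a c, n₀ ≤ a → a < c → Disjoint (I a) (I c)
  sum : ∀ ε : ℝ, 0 < ε → ∀ᶠ n : ℕ in atTop, |∑ m ∈ I n, μ.real (E m) - lam * Real.log n| ≤ ε * Real.log n
  small : ∀ η : ℝ, 0 < η → ∀ᶠ n : ℕ in atTop, ∀ m ∈ I n, μ.real (E m) ≤ η

lemma hits {E : ℕ → Set Ω} {I : ℕ → Finset ℕ} {lam : ℝ} (h : Reg E μ I lam) (hlam : 0 < lam) (β δ : ℝ)
    (hδ : 0 < δ) (hδβ : δ < β) (hr : rate lam β < 1) :
    ∀ᵐ ω ∂μ, ∃ᶠ n : ℕ in atTop, (β - δ) * Real.log n ≤ cnt E (I n) ω ∧ cnt E (I n) ω ≤ (β + δ) * Real.log n := by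
  -- a smaller window
  obtain ⟨δ', hδ'0, hδ'δ, hδ'r⟩ : ∃ δ' : ℝ, 0 < δ' ∧ δ' ≤ δ ∧ |Real.log (β / lam)| * δ' ≤ (1 - rate lam β) / 2 := by
    refine ⟨min δ ((1 - rate lam β) / (2 * (|Real.log (β / lam)| + 1))), ?_, min_le_left _ _, ?_⟩
    · apply lt_min hδ
      have : 0 < 1 - rate lam β := by linarith
      positivity
    · have h1 : 0 < 1 - rate lam β := by linarith
      have h2 := abs_nonneg (Real.log (β / lam))
      calc |Real.log (β / lam)| * min δ ((1 - rate lam β) / (2 * (|Real.log (β / lam)| + 1)))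
          ≤ (|Real.log (β / lam)| + 1) * ((1 - rate lam β) / (2 * (|Real.log (β / lam)| + 1))) := by
            apply mul_le_mul (by linarith) (min_le_right _ _) (by positivity) (by positivity)
        _ = (1 - rate lam β) / 2 := by field_simp
  obtain ⟨g1, g2⟩ := gain β δ' hδ'0 (by linarith)
  obtain ⟨ε, hε, hε1, hε2, hε3⟩ : ∃ ε : ℝ, 0 < ε ∧ 4 * ε ≤ (β + δ') * Real.log ((β + δ') / β) - δ' ∧
      4 * ε ≤ δ' - (β - δ') * Real.log (β / (β - δ')) ∧ ε ≤ (1 - rate lam β) / 2 := by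
    refine ⟨min (min (((β + δ') * Real.log ((β + δ') / β) - δ') / 4) ((δ' - (β - δ') * Real.log (β / (β - δ'))) / 4))
      ((1 - rate lam β) / 2), ?_, ?_, ?_, min_le_right _ _⟩
    · apply lt_min (lt_min (by linarith) (by linarith)) (by linarith)
    · have := (min_le_left (min (((β + δ') * Real.log ((β + δ') / β) - δ') / 4)
        ((δ' - (β - δ') * Real.log (β / (β - δ'))) / 4)) ((1 - rate lam β) / 2)).trans (min_le_left _ _)
      linarith
    · have := (min_le_left (min (((β + δ') * Real.log ((β + δ') / β) - δ') / 4)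
        ((δ' - (β - δ') * Real.log (β / (β - δ'))) / 4)) ((1 - rate lam β) / 2)).trans (min_le_right _ _)
      linarith
  obtain ⟨A, hA⟩ : ∃ A, A = (β + δ') / lam + 1 := ⟨_, rfl⟩
  have hβ : 0 < β := by linarith
  have hA0 : 0 < A := by
    rw [hA]
    positivity
  obtain ⟨e, he⟩ : ∃ e, e = min 1 (ε / (2 * A)) := ⟨_, rfl⟩
  have he0 : 0 < e := by
    rw [he]
    exact lt_min one_pos (by positivity)
  have heA : A * e ≤ ε / 2 := by
    calc A * e ≤ A * (ε / (2 * A)) := by
          apply mul_le_mul_of_nonneg_left _ hA0.le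
          rw [he]
          exact min_le_right _ _
      _ = ε / 2 := by field_simp
  obtain ⟨η, hη⟩ : ∃ η, η = min (1 / (3 * A)) (ε / (2 * (A ^ 2 * (lam + 1)))) := ⟨_, rfl⟩
  have hη0 : 0 < η := by
    rw [hη]
    exact lt_min (by positivity) (by positivity)
  have hAη : A * η ≤ 1 / 3 := by
    calc A * η ≤ A * (1 / (3 * A)) := by
          apply mul_le_mul_of_nonneg_left _ hA0.le
          rw [hη]
          exact min_le_left _ _
      _ = 1 / 3 := by field_simp
  have hAη2 : A ^ 2 * η * (lam + 1) ≤ ε / 2 := by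
    calc A ^ 2 * η * (lam + 1) = (A ^ 2 * (lam + 1)) * η := by ring
      _ ≤ (A ^ 2 * (lam + 1)) * (ε / (2 * (A ^ 2 * (lam + 1)))) := by
          apply mul_le_mul_of_nonneg_left _ (by positivity)
          rw [hη]
          exact min_le_right _ _
      _ = ε / 2 := by field_simp
  obtain ⟨n₀, hn₀⟩ := h.disj
  have hio := io h.meas h.indep I n₀ hn₀ (fun n => (β - δ') * Real.log n) (fun n => (β + δ') * Real.log n) (by
    apply not_summable_harm (1 / 2) (by norm_num)
    filter_upwards [h.sum e he0, h.small η hη0, tlog.eventually_ge_atTop (2 / ε), tlog.eventually_gt_atTop 0,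
      eventually_ge_atTop 1] with n k1 k2 k3 k4 k5
    have hn0 : (0 : ℝ) < n := by exact_mod_cast k5
    have hw := win_low h.meas h.indep (I n) lam β δ' ε A e η (Real.log n) hlam hδ'0 (by linarith) hA he0.le heA
      (by rw [he]; exact min_le_left _ _) k2 hη0.le hAη hAη2 k4 k1 hε1 hε2 (by
        rw [div_le_iff₀ hε] at k3
        linarith)
    refine le_trans ?_ hw
    apply mul_le_mul_of_nonneg_left _ (by norm_num)
    have h1 : (n : ℝ)⁻¹ = Real.exp (-Real.log n) := by
      rw [Real.exp_neg, Real.exp_log hn0]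
    rw [h1]
    apply Real.exp_le_exp.2
    have h2 : rate lam β + ε + |Real.log (β / lam)| * δ' ≤ 1 := by linarith
    nlinarith)
  filter_upwards [hio] with ω hω
  refine hω.mono fun n hn => ?_
  have hL : 0 ≤ Real.log (n : ℝ) := Real.log_natCast_nonneg n
  constructor
  · refine le_trans ?_ hn.1
    gcongr
  · refine hn.2.trans ?_
    gcongr

lemma summ (B : ℕ → Set Ω) (s : ℝ) (hs : 1 < s) (h : ∀ᶠ n : ℕ in atTop, μ.real (B n) ≤ Real.exp (-s * Real.log n)) :
    ∀ᵐ ω ∂μ, ∀ᶠ n in atTop, ω ∉ B n := by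
  apply ev
  have h1 : Summable (fun n : ℕ => ((n : ℝ) ^ s)⁻¹) := Real.summable_nat_rpow_inv.2 hs
  refine Summable.of_norm_bounded_eventually_nat h1 ?_
  filter_upwards [h, eventually_ge_atTop 1] with n hn hn1
  rw [Real.norm_of_nonneg measureReal_nonneg]
  refine hn.trans (le_of_eq ?_)
  have hn0 : (0 : ℝ) < n := by exact_mod_cast hn1
  rw [← Real.rpow_neg hn0.le, Real.rpow_def_of_pos hn0]
  ring_nf

lemma above {E : ℕ → Set Ω} {I : ℕ → Finset ℕ} {lam : ℝ} (h : Reg E μ I lam) (hlam : 0 < lam) (α : ℝ)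
    (hα : lam < α) (hr : 1 < rate lam α) : ∀ᵐ ω ∂μ, ∀ᶠ n : ℕ in atTop, cnt E (I n) ω < α * Real.log n := by
  obtain ⟨e, he⟩ : ∃ e, e = (rate lam α - 1) / (2 * (α / lam)) := ⟨_, rfl⟩
  have hα0 : 0 < α / lam := div_pos (by linarith) hlam
  have he0 : 0 < e := by
    rw [he]
    apply div_pos (by linarith) (by positivity)
  have h1 : 1 < rate lam α - (α / lam - 1) * e := by
    have h2 : α / lam * e = (rate lam α - 1) / 2 := by
      have hα1 : α ≠ 0 := (by linarith : (0 : ℝ) < α).ne'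
      rw [he]
      field_simp
    nlinarith
  have h2 := summ (μ := μ) (fun n => {ω | α * Real.log n ≤ cnt E (I n) ω}) _ h1 (by
    filter_upwards [h.sum e he0] with n k1
    exact tail_up h.meas h.indep (I n) lam α e (Real.log n) hlam hα.le k1)
  filter_upwards [h2] with ω hω
  filter_upwards [hω] with n hn
  exact not_le.1 hn

lemma below {E : ℕ → Set Ω} {I : ℕ → Finset ℕ} {lam : ℝ} (h : Reg E μ I lam) (α : ℝ) (hα0 : 0 < α)
    (hα : α < lam) (hr : 1 < rate lam α) : ∀ᵐ ω ∂μ, ∀ᶠ n : ℕ in atTop, α * Real.log n < cnt E (I n) ω := by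
  obtain ⟨e, he⟩ : ∃ e, e = (rate lam α - 1) / 2 := ⟨_, rfl⟩
  have hl0 : 0 < α / lam := div_pos hα0 (by linarith)
  have he0 : 0 < e := by
    rw [he]
    linarith
  have h1 : 1 < rate lam α - (1 - α / lam) * e := by nlinarith
  have h2 := summ (μ := μ) (fun n => {ω | cnt E (I n) ω ≤ α * Real.log n}) _ h1 (by
    filter_upwards [h.sum e he0] with n k1
    exact tail_low h.meas h.indep (I n) lam α e (Real.log n) hα0 hα.le k1)
  filter_upwards [h2] with ω hω
  filter_upwards [hω] with n hn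
  exact not_le.1 hn

/-- the limit points of the counts divided by `log n` -/
theorem cluster {E : ℕ → Set Ω} {I : ℕ → Finset ℕ} {lam : ℝ} (h : Reg E μ I lam) (hlam : 0 < lam) :
    ∀ᵐ ω ∂μ, ∀ β : ℝ, MapClusterPt β atTop (fun n : ℕ => cnt E (I n) ω / Real.log n) ↔ 0 ≤ β ∧ rate lam β ≤ 1 := by
  have a1 : ∀ᵐ ω ∂μ, ∀ β δ : ℚ, 0 < (δ : ℝ) → (δ : ℝ) < β → rate lam β < 1 → ∃ᶠ n : ℕ in atTop,
      ((β : ℝ) - δ) * Real.log n ≤ cnt E (I n) ω ∧ cnt E (I n) ω ≤ (β + δ) * Real.log n := by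
    rw [ae_all_iff]
    intro β
    rw [ae_all_iff]
    intro δ
    by_cases hc : 0 < (δ : ℝ) ∧ (δ : ℝ) < β ∧ rate lam β < 1
    · filter_upwards [hits h hlam β δ hc.1 hc.2.1 hc.2.2] with ω hω _ _ _
      exact hω
    · refine Eventually.of_forall fun ω k1 k2 k3 => absurd ⟨k1, k2, k3⟩ hc
  have a2 : ∀ᵐ ω ∂μ, ∀ α : ℚ, lam < α → 1 < rate lam α → ∀ᶠ n : ℕ in atTop, cnt E (I n) ω < α * Real.log n := by
    rw [ae_all_iff]
    intro α
    by_cases hc : lam < α ∧ 1 < rate lam α
    · filter_upwards [above h hlam α hc.1 hc.2] with ω hω _ _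
      exact hω
    · refine Eventually.of_forall fun ω k1 k2 => absurd ⟨k1, k2⟩ hc
  have a3 : ∀ᵐ ω ∂μ, ∀ α : ℚ, 0 < (α : ℝ) → (α : ℝ) < lam → 1 < rate lam α →
      ∀ᶠ n : ℕ in atTop, α * Real.log n < cnt E (I n) ω := by
    rw [ae_all_iff]
    intro α
    by_cases hc : 0 < (α : ℝ) ∧ (α : ℝ) < lam ∧ 1 < rate lam α
    · filter_upwards [below h α hc.1 hc.2.1 hc.2.2] with ω hω _ _ _
      exact hω
    · refine Eventually.of_forall fun ω k1 k2 k3 => absurd ⟨k1, k2, k3⟩ hc
  filter_upwards [a1, a2, a3] with ω w1 w2 w3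
  intro β
  have hcont := rate_cont lam hlam
  constructor
  · intro hβ
    have hβ0 : 0 ≤ β := by
      by_contra hneg
      rw [not_le] at hneg
      have h1 := mapClusterPt_iff_frequently.1 hβ (Set.Iio 0) (Iio_mem_nhds hneg)
      obtain ⟨n, hn⟩ := h1.exists
      have h2 : 0 ≤ cnt E (I n) ω / Real.log n := div_nonneg (cnt_le E (I n) ω).1 (Real.log_natCast_nonneg n)
      exact absurd hn (not_lt.2 h2)
    refine ⟨hβ0, ?_⟩
    by_contra hr
    rw [not_le] at hr
    have hop : ∀ᶠ x in 𝓝 β, 1 < rate lam x := hcont.continuousAt.eventually (lt_mem_nhds hr)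
    obtain ⟨r, hr0, hball⟩ := Metric.eventually_nhds_iff.1 hop
    rcases lt_trichotomy β lam with hlt | heq | hgt
    · obtain ⟨α, hα1, hα2⟩ := exists_rat_btwn (show β < min lam (β + r) by
        rw [lt_min_iff]
        exact ⟨hlt, by linarith⟩)
      have hα3 := lt_min_iff.1 hα2
      have h1 := w3 α (by linarith) hα3.1 (hball (by
        rw [Real.dist_eq, abs_of_pos (by linarith)]
        linarith [hα3.2]))
      have h2 := mapClusterPt_iff_frequently.1 hβ (Set.Iio (α : ℝ)) (Iio_mem_nhds hα1)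
      obtain ⟨n, hn, hn2, hn3⟩ := (h2.and_eventually (h1.and (tlog.eventually_gt_atTop 0))).exists
      have h3 : cnt E (I n) ω / Real.log n < α := hn
      rw [div_lt_iff₀ hn3] at h3
      linarith
    · rw [heq, rate_self lam hlam] at hr
      linarith
    · obtain ⟨α, hα1, hα2⟩ := exists_rat_btwn (show max lam (β - r) < β by
        rw [max_lt_iff]
        exact ⟨hgt, by linarith⟩)
      have hα3 := max_lt_iff.1 hα1
      have h1 := w2 α hα3.1 (hball (by
        rw [Real.dist_eq, abs_of_neg (by linarith)]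
        linarith [hα3.2]))
      have h2 := mapClusterPt_iff_frequently.1 hβ (Set.Ioi (α : ℝ)) (Ioi_mem_nhds hα2)
      obtain ⟨n, hn, hn2, hn3⟩ := (h2.and_eventually (h1.and (tlog.eventually_gt_atTop 0))).exists
      have h3 : (α : ℝ) < cnt E (I n) ω / Real.log n := hn
      rw [lt_div_iff₀ hn3] at h3
      linarith
  · rintro ⟨hβ0, hβ1⟩
    rw [mapClusterPt_iff_frequently]
    intro s hs
    obtain ⟨r, hr0, hball⟩ := Metric.mem_nhds_iff.1 hs
    -- a point between β and lam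
    obtain ⟨s', hs'0, hs'1, hs'r⟩ : ∃ s' : ℝ, 0 < s' ∧ s' < 1 ∧ s' * |lam - β| ≤ r / 4 := by
      refine ⟨min (1 / 2) (r / (4 * (|lam - β| + 1))), lt_min (by norm_num) (by positivity),
        (min_le_left _ _).trans_lt (by norm_num), ?_⟩
      calc min (1 / 2) (r / (4 * (|lam - β| + 1))) * |lam - β| ≤
            (r / (4 * (|lam - β| + 1))) * (|lam - β| + 1) := by
            apply mul_le_mul (min_le_right _ _) (by linarith) (abs_nonneg _) (by positivity)
        _ = r / 4 := by field_simp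
    obtain ⟨β2, hβ2⟩ : ∃ β2, β2 = (1 - s') * β + s' * lam := ⟨_, rfl⟩
    have hβ2r : rate lam β2 < 1 := by
      have h1 := rate_convex lam hlam β s' hβ0 hs'0.le hs'1.le
      rw [← hβ2] at h1
      nlinarith
    have hβ2p : 0 < β2 := by
      rw [hβ2]
      have : 0 < s' * lam := by positivity
      have : 0 ≤ (1 - s') * β := mul_nonneg (by linarith) hβ0
      linarith
    have hβ2d : |β2 - β| ≤ r / 4 := by
      have : β2 - β = s' * (lam - β) := by
        rw [hβ2]
        ring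
      rw [this, abs_mul, abs_of_pos hs'0]
      exact hs'r
    have hop : ∀ᶠ x in 𝓝 β2, rate lam x < 1 := hcont.continuousAt.eventually (gt_mem_nhds hβ2r)
    obtain ⟨r2, hr20, hball2⟩ := Metric.eventually_nhds_iff.1 hop
    obtain ⟨β3, hβ3a, hβ3b⟩ := exists_rat_btwn (show β2 < β2 + min (r / 4) r2 by
      have : 0 < min (r / 4) r2 := lt_min (by linarith) hr20
      linarith)
    have hβ3c : (β3 : ℝ) - β2 < r / 4 ∧ (β3 : ℝ) - β2 < r2 := by
      have h1 := min_le_left (r / 4) r2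
      have h2 := min_le_right (r / 4) r2
      constructor <;> linarith
    have hβ3r : rate lam β3 < 1 := hball2 (by
      rw [Real.dist_eq, abs_of_pos (by linarith)]
      exact hβ3c.2)
    obtain ⟨δ, hδ0, hδ1⟩ := exists_rat_btwn (show (0 : ℝ) < min (r / 4) β3 from lt_min (by linarith) (by linarith))
    have hδ2 := lt_min_iff.1 hδ1
    have h1 := w1 β3 δ hδ0 hδ2.2 hβ3r
    refine (h1.and_eventually (tlog.eventually_gt_atTop 0)).mono ?_
    rintro n ⟨⟨k1, k2⟩, k3⟩
    apply hball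
    rw [Metric.mem_ball, Real.dist_eq]
    have k4 : (β3 : ℝ) - δ ≤ cnt E (I n) ω / Real.log n := by
      rw [le_div_iff₀ k3]
      exact k1
    have k5 : cnt E (I n) ω / Real.log n ≤ β3 + δ := by
      rw [div_le_iff₀ k3]
      exact k2
    have k6 := abs_le.1 hβ2d
    rw [abs_lt]
    constructor <;> linarith [k6.1, k6.2, hδ2.1, hβ3c.1]

/-- empty windows -/
theorem voids {E : ℕ → Set Ω} {I : ℕ → Finset ℕ} {lam : ℝ} (h : Reg E μ I lam) (hlam : 0 < lam) (hl : lam < 1) :
    ∀ᵐ ω ∂μ, ∃ᶠ n : ℕ in atTop, ∀ m ∈ I n, ω ∉ E m := by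
  obtain ⟨n₀, hn₀⟩ := h.disj
  obtain ⟨η, hη⟩ : ∃ η, η = (1 - lam) / 4 := ⟨_, rfl⟩
  have hη0 : 0 < η := by
    rw [hη]
    linarith
  have hdiv : ¬ Summable (fun n => ∏ m ∈ I n, (1 - μ.real (E m))) := by
    apply not_summable_harm 1 one_pos
    filter_upwards [h.sum η hη0, h.small η hη0, tlog.eventually_gt_atTop 0, eventually_ge_atTop 1] with n k1 k2 k3 k4
    have hn0 : (0 : ℝ) < n := by exact_mod_cast k4
    have h1 : (n : ℝ)⁻¹ = Real.exp (-Real.log n) := by
      rw [Real.exp_neg, Real.exp_log hn0]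
    rw [one_mul, h1]
    have h2 : Real.exp (-((1 + η) * ∑ m ∈ I n, μ.real (E m))) ≤ ∏ m ∈ I n, (1 - μ.real (E m)) := by
      rw [mul_sum, ← sum_neg_distrib, Real.exp_sum]
      apply Finset.prod_le_prod
      · intro m _
        positivity
      · intro m hm
        have h3 : 0 ≤ μ.real (E m) := measureReal_nonneg
        have h4 := k2 m hm
        have h5 := exp_sub_sq (x := -μ.real (E m)) (by
          rw [abs_neg, abs_of_nonneg h3]
          linarith)
        have h6 : Real.exp (-((1 + η) * μ.real (E m))) ≤ Real.exp (-μ.real (E m) - (-μ.real (E m)) ^ 2) := by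
          apply Real.exp_le_exp.2
          nlinarith
        linarith
    refine le_trans (Real.exp_le_exp.2 (neg_le_neg ?_)) h2
    have h3 := (abs_le.1 k1).2
    have h4 : ∑ m ∈ I n, μ.real (E m) ≤ (lam + η) * Real.log n := by linarith
    have h5 : (1 + η) * (lam + η) ≤ 1 := by
      rw [hη]
      nlinarith
    calc (1 + η) * ∑ m ∈ I n, μ.real (E m) ≤ (1 + η) * ((lam + η) * Real.log n) := by gcongr
      _ = ((1 + η) * (lam + η)) * Real.log n := by ring
      _ ≤ 1 * Real.log n := by gcongr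
      _ = Real.log n := one_mul _
  filter_upwards [Pool.Agent.U746.GM.io' h.meas h.indep I n₀ hn₀ hdiv] with ω hω
  rw [Nat.frequently_atTop_iff_infinite]
  exact hω.mono fun n hn => Pool.Agent.U746.GM.mem_NN.1 hn

end Pool.Agent.U53.PW
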