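import Mathlib
import Pool.Agent.U53.PW.Ld

set_option autoImplicit false

/-! # Numerical values of the rate function for `b = 2`, `C = 1` -/

namespace Pool.Agent.U53.PW

lemma e_pow_le (k : ℕ) : Real.exp k ≤ (2.7182818286 : ℝ) ^ k := by
  have h : Real.exp k = Real.exp 1 ^ k := by
    rw [← Real.exp_nat_mul, mul_one]
  rw [h]
  exact pow_le_pow_left₀ (Real.exp_pos _).le Real.exp_one_lt_d9.le k

lemma le_e_pow (k : ℕ) : (2.7182818283 : ℝ) ^ k ≤ Real.exp k := by
  have h : Real.exp k = Real.exp 1 ^ k := by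
    rw [← Real.exp_nat_mul, mul_one]
  rw [h]
  exact pow_le_pow_left₀ (by norm_num) Real.exp_one_gt_d9.le k

/-- `exp (k / d) ≤ x` from `e ^ k ≤ x ^ d` -/
lemma exp_le_of (k d : ℕ) (hd : 0 < d) (x : ℝ) (hx : 0 ≤ x) (h : (2.7182818286 : ℝ) ^ k ≤ x ^ d) :
    Real.exp ((k : ℝ) / d) ≤ x := by
  have hd' : (d : ℝ) ≠ 0 := by exact_mod_cast hd.ne'
  have h1 : Real.exp ((k : ℝ) / d) ^ d ≤ x ^ d := by
    rw [← Real.exp_nat_mul]
    have : (d : ℝ) * ((k : ℝ) / d) = k := by field_simp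
    rw [this]
    exact (e_pow_le k).trans h
  exact le_of_pow_le_pow_left₀ hd.ne' hx h1

lemma le_exp_of (k d : ℕ) (hd : 0 < d) (x : ℝ) (h : x ^ d ≤ (2.7182818283 : ℝ) ^ k) :
    x ≤ Real.exp ((k : ℝ) / d) := by
  have hd' : (d : ℝ) ≠ 0 := by exact_mod_cast hd.ne'
  have h1 : x ^ d ≤ Real.exp ((k : ℝ) / d) ^ d := by
    rw [← Real.exp_nat_mul]
    have : (d : ℝ) * ((k : ℝ) / d) = k := by field_simp
    rw [this]
    exact h.trans (le_e_pow k)
  exact le_of_pow_le_pow_left₀ hd.ne' (Real.exp_pos _).le h1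

lemma inv_log_two : 1.4426 < 1 / Real.log 2 ∧ 1 / Real.log 2 < 1.4428 := by
  have h1 := Real.log_two_lt_d9
  have h2 := Real.log_two_gt_d9
  constructor
  · rw [lt_div_iff₀ (by linarith)]
    linarith
  · rw [div_lt_iff₀ (by linarith)]
    linarith

lemma div_inv (x : ℝ) : x / (1 / Real.log 2) = x * Real.log 2 := by
  rw [div_div_eq_mul_div, div_one]

lemma rate_a : 1 < rate (1 / Real.log 2) (1 / 8) := by
  unfold rate
  rw [div_inv]
  have h1 := Real.log_two_lt_d9
  have h2 := Real.log_two_gt_d9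
  have h3 : -(5 / 2 : ℝ) ≤ Real.log (1 / 8 * Real.log 2) := by
    rw [Real.le_log_iff_exp_le (by linarith)]
    have h4 := le_exp_of 5 2 (by norm_num) 12 (by norm_num)
    rw [Real.exp_neg]
    have h5 : (Real.exp (5 / 2))⁻¹ ≤ (12 : ℝ)⁻¹ := by
      apply inv_anti₀ (by norm_num)
      exact_mod_cast h4
    refine h5.trans ?_
    linarith
  have h6 := inv_log_two.1
  linarith

lemma rate_b : 1 < rate (1 / Real.log 2) (7 / 2) := by
  unfold rate
  rw [div_inv]
  have h1 := Real.log_two_lt_d9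
  have h2 := Real.log_two_gt_d9
  have h3 : (22 / 25 : ℝ) ≤ Real.log (7 / 2 * Real.log 2) := by
    rw [Real.le_log_iff_exp_le (by linarith)]
    have h4 := exp_le_of 22 25 (by norm_num) 2.42 (by norm_num) (by norm_num)
    have h5 : Real.exp (22 / 25) ≤ 2.42 := by exact_mod_cast h4
    linarith
  have h6 := inv_log_two.1
  linarith

lemma rate_c : rate (1 / Real.log 2) (1 / 7) ≤ 1 := by
  unfold rate
  rw [div_inv]
  have h1 := Real.log_two_lt_d9
  have h2 := Real.log_two_gt_d9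
  have h3 : Real.log (1 / 7 * Real.log 2) ≤ -(11 / 5 : ℝ) := by
    rw [Real.log_le_iff_le_exp (by linarith)]
    have h4 := exp_le_of 11 5 (by norm_num) 10 (by norm_num) (by norm_num)
    have h5 : Real.exp (11 / 5) ≤ 10 := by exact_mod_cast h4
    rw [Real.exp_neg]
    have h7 : (10 : ℝ)⁻¹ ≤ (Real.exp (11 / 5))⁻¹ := inv_anti₀ (Real.exp_pos _) h5
    refine le_trans ?_ h7
    linarith
  have h6 := inv_log_two.2
  linarith

lemma rate_d : rate (1 / Real.log 2) (17 / 5) ≤ 1 := by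
  unfold rate
  rw [div_inv]
  have h1 := Real.log_two_lt_d9
  have h2 := Real.log_two_gt_d9
  have h3 : Real.log (17 / 5 * Real.log 2) ≤ (13 / 15 : ℝ) := by
    rw [Real.log_le_iff_le_exp (by linarith)]
    have h4 := le_exp_of 13 15 (by norm_num) 2.36 (by norm_num)
    have h5 : (2.36 : ℝ) ≤ Real.exp (13 / 15) := by exact_mod_cast h4
    linarith
  have h6 := inv_log_two.2
  linarith

end Pool.Agent.U53.PW
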