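import Mathlib
import Pool.Agent.U53.PW.Main

set_option autoImplicit false

/-! # All windows `(x, x + C (log x) ^ a]`, `a ≥ 2` -/

open MeasureTheory ProbabilityTheory Filter Finset Topology

namespace Pool.Agent.U53.PW

open Pool.Agent.U839.Sv (fT fT_nonneg dens sub_pow sum_window exists_R)
open Pool.Agent.U839.Thin (tlog)

/-- the length of the windows -/
noncomputable def HL (C a : ℝ) (n : ℕ) : ℕ := ⌊C * (Real.log n) ^ a⌋₊

/-- the windows -/
noncomputable def Wn (C a : ℝ) (n : ℕ) : Finset ℕ := Ioc n (n + HL C a n)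

/-- the probabilities in the windows -/
theorem W_sum (T : ℕ → ℕ) (hT : Monotone T)
    (hTs : ∀ θ : ℝ, 0 < θ → ∀ᶠ n : ℕ in atTop, (T n : ℝ) ≤ (Real.log n) ^ θ) (q : ℕ → ℝ)
    (hq : ∀ m : ℕ, q m = min 1 (fT T m / Real.log m)) (C a : ℝ) (hC : 0 < C) (ha : 2 ≤ a) (ε : ℝ) (hε : 0 < ε) :
    ∀ᶠ n : ℕ in atTop, |∑ m ∈ Wn C a n, q m - C * (Real.log n) ^ (a - 1)| ≤ ε * (Real.log n) ^ (a - 1) := by
  obtain ⟨η, hη⟩ : ∃ η, η = min (1 / 4) (ε / (4 * C)) := ⟨_, rfl⟩
  have hη0 : 0 < η := by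
    rw [hη]
    exact lt_min (by norm_num) (by positivity)
  have hη1 : η ≤ 1 / 4 := by
    rw [hη]
    exact min_le_left _ _
  have hηC : 4 * η * C ≤ ε := by
    calc 4 * η * C ≤ 4 * (ε / (4 * C)) * C := by
          have : η ≤ ε / (4 * C) := by
            rw [hη]
            exact min_le_right _ _
          gcongr
      _ = ε := by field_simp
  obtain ⟨R, hR, hRδ⟩ := exists_R η hη0
  obtain ⟨D, hD⟩ : ∃ D : ℕ, D = 8 * R + 18 := ⟨_, rfl⟩
  have hD0 : (0 : ℝ) < D := by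
    rw [hD]
    positivity
  have hsp := sub_pow T 1 (hTs 1 one_pos)
  obtain ⟨n₁, hn₁⟩ := eventually_atTop.1 (dens T hsp 1 one_pos)
  have h2x : Tendsto (fun x : ℕ => 2 * x) atTop atTop := tendsto_id.const_mul_atTop' (by norm_num)
  have e1 := h2x.eventually (hTs (1 / D) (by positivity))
  have e2 : ∀ᶠ n : ℕ in atTop, C * (Real.log n) ^ a ≤ n := by
    have h := ((isLittleO_log_rpow_rpow_atTop a one_pos).const_mul_left C).bound one_pos
    filter_upwards [tendsto_natCast_atTop_atTop.eventually h, eventually_ge_atTop 1] with n hn hn1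
    rw [Real.rpow_one, one_mul] at hn
    refine (le_abs_self _).trans (hn.trans (le_of_eq ?_))
    exact abs_of_nonneg (Nat.cast_nonneg n)
  filter_upwards [e1, e2, tlog.eventually_ge_atTop 1, tlog.eventually_ge_atTop (3 ^ D * 2 / (η * C)),
    tlog.eventually_ge_atTop (1 / η), tlog.eventually_ge_atTop (1 / (η * C)), eventually_ge_atTop (max n₁ 1)]
    with n g1 g2 g3 g4 g5 g5' g6
  have hn1 : 1 ≤ n := (le_max_right _ _).trans g6
  have hn0 : (0 : ℝ) < n := by exact_mod_cast hn1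
  obtain ⟨L, hL⟩ : ∃ L, L = Real.log (n : ℝ) := ⟨_, rfl⟩
  rw [← hL] at g2 g3 g4 g5 g5' ⊢
  have hL0 : 0 < L := by linarith
  obtain ⟨K, hK⟩ : ∃ K, K = HL C a n := ⟨_, rfl⟩
  have hK1 : (K : ℝ) ≤ C * L ^ a := by
    rw [hK, HL, hL]
    exact Nat.floor_le (mul_nonneg hC.le (Real.rpow_nonneg (Real.log_natCast_nonneg n) a))
  have hK2 : C * L ^ a - 1 ≤ K := by
    rw [hK, HL, hL]
    exact (Nat.sub_one_lt_floor _).le
  have hKn : K ≤ n := by
    have : (K : ℝ) ≤ n := hK1.trans g2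
    exact_mod_cast this
  have hLa : L ^ a = L ^ (a - 1) * L := by
    have := Real.rpow_add hL0 (a - 1) 1
    rw [Real.rpow_one] at this
    rw [← this]
    congr 1
    ring
  have hLa1 : L ≤ L ^ (a - 1) := by
    have := Real.rpow_le_rpow_of_exponent_le g3 (show (1 : ℝ) ≤ a - 1 by linarith)
    rwa [Real.rpow_one] at this
  have hLp : 0 < L ^ (a - 1) := by positivity
  have h1 := sum_window R hR T hT n K (T (2 * n)) (hT (by omega))
  rw [← hD] at h1
  have hlog2 : Real.log ((2 * n : ℕ) : ℝ) ≤ 2 * L := by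
    push_cast
    rw [Real.log_mul (by norm_num) hn0.ne', ← hL]
    have := Real.log_two_lt_d9
    linarith
  have hlog2' : 1 ≤ Real.log ((2 * n : ℕ) : ℝ) := by
    refine g3.trans ?_
    rw [hL]
    apply Real.log_le_log hn0
    push_cast
    linarith
  have h2 : ((T (2 * n) : ℝ) + 2) ^ D ≤ 3 ^ D * 2 * L := by
    have h4 : (1 : ℝ) ≤ (Real.log ((2 * n : ℕ) : ℝ)) ^ (1 / (D : ℝ)) :=
      Real.one_le_rpow hlog2' (by positivity)
    calc ((T (2 * n) : ℝ) + 2) ^ D ≤ (3 * (Real.log ((2 * n : ℕ) : ℝ)) ^ (1 / (D : ℝ))) ^ D := by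
          apply pow_le_pow_left₀ (by positivity)
          linarith
      _ = 3 ^ D * Real.log ((2 * n : ℕ) : ℝ) := by
          rw [mul_pow, ← Real.rpow_natCast ((Real.log ((2 * n : ℕ) : ℝ)) ^ (1 / (D : ℝ))) D,
            ← Real.rpow_mul (by linarith), one_div, inv_mul_cancel₀ hD0.ne', Real.rpow_one]
      _ ≤ 3 ^ D * (2 * L) := by gcongr
      _ = 3 ^ D * 2 * L := by ring
  have h3 : 3 ^ D * 2 * L ≤ η * (C * L ^ a) := by
    rw [div_le_iff₀ (by positivity)] at g4
    calc 3 ^ D * 2 * L ≤ L * (η * C) * L := by gcongr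
      _ ≤ L ^ (a - 1) * (η * C) * L := by gcongr
      _ = η * (C * L ^ a) := by rw [hLa]; ring
  have h4 : (2 : ℝ) ^ 25 * (1 / 2) ^ (2 * R) * K ≤ η * (C * L ^ a) := by gcongr
  have hone : 1 ≤ η * (C * L ^ a) := by
    rw [div_le_iff₀ (by positivity)] at g5'
    have : L * (η * C) ≤ L ^ (a - 1) * L * (η * C) := by
      apply mul_le_mul_of_nonneg_right _ (by positivity)
      nlinarith
    rw [hLa]
    linarith
  obtain ⟨F, hF⟩ : ∃ F, F = ∑ m ∈ Ioc n (n + K), fT T m := ⟨_, rfl⟩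
  rw [← hF] at h1
  have h1' := abs_le.1 h1
  have hFu : F ≤ (1 + 2 * η) * (C * L ^ a) := by linarith [h1'.2]
  have hFl : (1 - 3 * η) * (C * L ^ a) ≤ F := by linarith [h1'.1]
  have hW : Wn C a n = Ioc n (n + K) := by
    rw [hK]
    rfl
  rw [hW]
  have hlog : ∀ m ∈ Ioc n (n + K), L ≤ Real.log m ∧ Real.log m ≤ (1 + η) * L := by
    intro m hm
    rw [mem_Ioc] at hm
    have k1 : (n : ℝ) ≤ m := by exact_mod_cast hm.1.le
    have k2 : (m : ℝ) ≤ 2 * n := by
      have : m ≤ 2 * n := by omega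
      exact_mod_cast this
    constructor
    · rw [hL]
      exact Real.log_le_log hn0 k1
    · have k3 := Real.log_le_log (by linarith) k2
      rw [Real.log_mul (by norm_num) hn0.ne', ← hL] at k3
      have k4 := Real.log_two_lt_d9
      rw [div_le_iff₀ hη0] at g5
      linarith
  have hqv : ∀ m ∈ Ioc n (n + K), q m = fT T m / Real.log m := by
    intro m hm
    rw [hq m, min_eq_right (hn₁ m (((le_max_left _ _).trans g6).trans (mem_Ioc.1 hm).1.le))]
  rw [sum_congr rfl hqv]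
  have u1 : ∑ m ∈ Ioc n (n + K), fT T m / Real.log m ≤ F / L := by
    rw [hF, sum_div]
    apply sum_le_sum
    intro m hm
    exact div_le_div_of_nonneg_left (fT_nonneg T m) hL0 (hlog m hm).1
  have u2 : F / ((1 + η) * L) ≤ ∑ m ∈ Ioc n (n + K), fT T m / Real.log m := by
    rw [hF, sum_div]
    apply sum_le_sum
    intro m hm
    exact div_le_div_of_nonneg_left (fT_nonneg T m) (by linarith [(hlog m hm).1]) (hlog m hm).2
  have u3 : F / L ≤ (1 + 2 * η) * C * L ^ (a - 1) := by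
    rw [div_le_iff₀ hL0]
    refine hFu.trans (le_of_eq ?_)
    rw [hLa]
    ring
  have u4 : (1 - 4 * η) * C * L ^ (a - 1) ≤ F / ((1 + η) * L) := by
    rw [le_div_iff₀ (by positivity)]
    refine le_trans ?_ hFl
    have h5 : (1 - 4 * η) * (1 + η) ≤ 1 - 3 * η := by nlinarith
    have h6 : (1 - 4 * η) * (1 + η) * (C * L ^ a) ≤ (1 - 3 * η) * (C * L ^ a) := by gcongr
    refine le_trans (le_of_eq ?_) h6
    rw [hLa]
    ring
  have h7 : 4 * η * C * L ^ (a - 1) ≤ ε * L ^ (a - 1) := by gcongr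
  have h8 : 0 ≤ η * C * L ^ (a - 1) := by positivity
  rw [abs_le]
  constructor
  · linarith
  · linarith

variable {Ω : Type*} [mΩ : MeasurableSpace Ω] {μ : Measure Ω} [IsProbabilityMeasure μ]

lemma above' {E : ℕ → Set Ω} (hm : ∀ n, MeasurableSet (E n)) (hE : iIndepSet E μ) (I : ℕ → Finset ℕ) (L : ℕ → ℝ)
    (lam α ρ s : ℝ) (hlam : 0 < lam) (hα : lam < α) (hρ : ρ < rate lam α) (hs : 1 < s)
    (hsum : ∀ ε : ℝ, 0 < ε → ∀ᶠ n : ℕ in atTop, |∑ m ∈ I n, μ.real (E m) - lam * L n| ≤ ε * L n)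
    (hL0 : ∀ᶠ n : ℕ in atTop, 0 ≤ L n) (hL : ∀ᶠ n : ℕ in atTop, s * Real.log n ≤ ρ * L n) :
    ∀ᵐ ω ∂μ, ∀ᶠ n : ℕ in atTop, cnt E (I n) ω < α * L n := by
  obtain ⟨e, he⟩ : ∃ e, e = (rate lam α - ρ) / (α / lam) := ⟨_, rfl⟩
  have hα0 : 0 < α / lam := div_pos (by linarith) hlam
  have he0 : 0 < e := by
    rw [he]
    exact div_pos (by linarith) hα0
  have h1 : ρ ≤ rate lam α - (α / lam - 1) * e := by
    have h2 : α / lam * e = rate lam α - ρ := by
      rw [he]
      exact mul_div_cancel₀ _ hα0.ne'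
    nlinarith
  have h2 := summ (μ := μ) (fun n => {ω | α * L n ≤ cnt E (I n) ω}) s hs (by
    filter_upwards [hsum e he0, hL0, hL] with n k1 k2 k3
    refine (tail_up hm hE (I n) lam α e (L n) hlam hα.le k1).trans (Real.exp_le_exp.2 ?_)
    nlinarith)
  filter_upwards [h2] with ω hω
  filter_upwards [hω] with n hn
  exact not_le.1 hn

lemma below' {E : ℕ → Set Ω} (hm : ∀ n, MeasurableSet (E n)) (hE : iIndepSet E μ) (I : ℕ → Finset ℕ) (L : ℕ → ℝ)
    (lam α ρ s : ℝ) (hα0 : 0 < α) (hα : α < lam) (hρ : ρ < rate lam α) (hs : 1 < s)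
    (hsum : ∀ ε : ℝ, 0 < ε → ∀ᶠ n : ℕ in atTop, |∑ m ∈ I n, μ.real (E m) - lam * L n| ≤ ε * L n)
    (hL0 : ∀ᶠ n : ℕ in atTop, 0 ≤ L n) (hL : ∀ᶠ n : ℕ in atTop, s * Real.log n ≤ ρ * L n) :
    ∀ᵐ ω ∂μ, ∀ᶠ n : ℕ in atTop, α * L n < cnt E (I n) ω := by
  obtain ⟨e, he⟩ : ∃ e, e = rate lam α - ρ := ⟨_, rfl⟩
  have hl0 : 0 < α / lam := div_pos hα0 (by linarith)
  have he0 : 0 < e := by
    rw [he]
    linarith
  have h1 : ρ ≤ rate lam α - (1 - α / lam) * e := by nlinarith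
  have h2 := summ (μ := μ) (fun n => {ω | cnt E (I n) ω ≤ α * L n}) s hs (by
    filter_upwards [hsum e he0, hL0, hL] with n k1 k2 k3
    refine (tail_low hm hE (I n) lam α e (L n) hα0 hα.le k1).trans (Real.exp_le_exp.2 ?_)
    nlinarith)
  filter_upwards [h2] with ω hω
  filter_upwards [hω] with n hn
  exact not_le.1 hn

lemma cluster_sub {E : ℕ → Set Ω} (hm : ∀ n, MeasurableSet (E n)) (hE : iIndepSet E μ) (I : ℕ → Finset ℕ)
    (lam : ℝ) (hlam : 0 < lam)
    (hsum : ∀ ε : ℝ, 0 < ε → ∀ᶠ n : ℕ in atTop, |∑ m ∈ I n, μ.real (E m) - lam * Real.log n| ≤ ε * Real.log n) :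
    ∀ᵐ ω ∂μ, ∀ β : ℝ, MapClusterPt β atTop (fun n : ℕ => cnt E (I n) ω / Real.log n) → 0 ≤ β ∧ rate lam β ≤ 1 := by
  have hL0 : ∀ᶠ n : ℕ in atTop, 0 ≤ Real.log (n : ℝ) := tlog.eventually_ge_atTop 0
  have a2 : ∀ᵐ ω ∂μ, ∀ α : ℚ, lam < α → 1 < rate lam α → ∀ᶠ n : ℕ in atTop, cnt E (I n) ω < α * Real.log n := by
    rw [ae_all_iff]
    intro α
    by_cases hc : lam < α ∧ 1 < rate lam α
    · obtain ⟨ρ, hρ1, hρ2⟩ := exists_between hc.2
      filter_upwards [above' hm hE I (fun n => Real.log n) lam α ρ ρ hlam hc.1 hρ2 hρ1 hsum hL0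
        (Eventually.of_forall fun n => le_rfl)] with ω hω _ _
      exact hω
    · refine Eventually.of_forall fun ω k1 k2 => absurd ⟨k1, k2⟩ hc
  have a3 : ∀ᵐ ω ∂μ, ∀ α : ℚ, 0 < (α : ℝ) → (α : ℝ) < lam → 1 < rate lam α →
      ∀ᶠ n : ℕ in atTop, α * Real.log n < cnt E (I n) ω := by
    rw [ae_all_iff]
    intro α
    by_cases hc : 0 < (α : ℝ) ∧ (α : ℝ) < lam ∧ 1 < rate lam α
    · obtain ⟨ρ, hρ1, hρ2⟩ := exists_between hc.2.2
      filter_upwards [below' hm hE I (fun n => Real.log n) lam α ρ ρ hc.1 hc.2.1 hρ2 hρ1 hsum hL0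
        (Eventually.of_forall fun n => le_rfl)] with ω hω _ _ _
      exact hω
    · refine Eventually.of_forall fun ω k1 k2 k3 => absurd ⟨k1, k2, k3⟩ hc
  filter_upwards [a2, a3] with ω w2 w3
  intro β hβ
  have hcont := rate_cont lam hlam
  have hβ0 : 0 ≤ β := by
    by_contra hneg
    rw [not_le] at hneg
    have h1 := mapClusterPt_iff_frequently.1 hβ (Set.Iio 0) (Iio_mem_nhds hneg)
    obtain ⟨n, hn⟩ := h1.exists
    have h2 : 0 ≤ cnt E (I n) ω / Real.log n := div_nonneg (cnt_le E (I n) ω).1 (Real.log_natCast_nonneg n)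
    exact absurd hn (not_lt.2 h2)
  refine ⟨hβ0, ?_⟩
  by_contra hr
  rw [not_le] at hr
  have hop : ∀ᶠ x in 𝓝 β, 1 < rate lam x := hcont.continuousAt.eventually (lt_mem_nhds hr)
  obtain ⟨r, hr0, hball⟩ := Metric.eventually_nhds_iff.1 hop
  rcases lt_trichotomy β lam with hlt | heq | hgt
  · obtain ⟨α, hα1, hα2⟩ := exists_rat_btwn (show β < min lam (β + r) by
      rw [lt_min_iff]
      exact ⟨hlt, by linarith⟩)
    have hα3 := lt_min_iff.1 hα2
    have h1 := w3 α (by linarith) hα3.1 (hball (by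
      rw [Real.dist_eq, abs_of_pos (by linarith)]
      linarith [hα3.2]))
    have h2 := mapClusterPt_iff_frequently.1 hβ (Set.Iio (α : ℝ)) (Iio_mem_nhds hα1)
    obtain ⟨n, hn, hn2, hn3⟩ := (h2.and_eventually (h1.and (tlog.eventually_gt_atTop 0))).exists
    have h3 : cnt E (I n) ω / Real.log n < α := hn
    rw [div_lt_iff₀ hn3] at h3
    linarith
  · rw [heq, rate_self lam hlam] at hr
    linarith
  · obtain ⟨α, hα1, hα2⟩ := exists_rat_btwn (show max lam (β - r) < β by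
      rw [max_lt_iff]
      exact ⟨hgt, by linarith⟩)
    have hα3 := max_lt_iff.1 hα1
    have h1 := w2 α hα3.1 (hball (by
      rw [Real.dist_eq, abs_of_neg (by linarith)]
      linarith [hα3.2]))
    have h2 := mapClusterPt_iff_frequently.1 hβ (Set.Ioi (α : ℝ)) (Ioi_mem_nhds hα2)
    obtain ⟨n, hn, hn2, hn3⟩ := (h2.and_eventually (h1.and (tlog.eventually_gt_atTop 0))).exists
    have h3 : (α : ℝ) < cnt E (I n) ω / Real.log n := hn
    rw [lt_div_iff₀ hn3] at h3
    linarith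

/-- the thin sequence of the windows -/
noncomputable def gk (k : ℕ) : ℕ := ⌊(Real.log k) ^ 3⌋₊ + 1

noncomputable def nk (k : ℕ) : ℕ := k * gk k

lemma gk_mono {k l : ℕ} (hk : 1 ≤ k) (h : k ≤ l) : gk k ≤ gk l := by
  unfold gk
  apply Nat.add_le_add_right
  apply Nat.floor_le_floor
  have h1 : (1 : ℝ) ≤ k := by exact_mod_cast hk
  have h2 : (k : ℝ) ≤ l := by exact_mod_cast h
  have h3 := Real.log_le_log (by linarith) h2
  exact pow_le_pow_left₀ (Real.log_nonneg h1) h3 3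

lemma nk_mono {k l : ℕ} (hk : 1 ≤ k) (h : k ≤ l) : nk k ≤ nk l :=
  Nat.mul_le_mul h (gk_mono hk h)

lemma le_nk (k : ℕ) : k ≤ nk k := by
  unfold nk gk
  exact Nat.le_mul_of_pos_right k (Nat.succ_pos _)

lemma nk_tendsto : Tendsto nk atTop atTop := tendsto_atTop_mono le_nk tendsto_id

lemma nk_log (η : ℝ) (hη : 0 < η) : ∀ᶠ k : ℕ in atTop, Real.log (nk k) ≤ (1 + η) * Real.log k := by
  have h := (isLittleO_log_rpow_rpow_atTop (3 : ℝ) hη).bound (show (0 : ℝ) < 1 / 2 by norm_num)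
  have h2 : Tendsto (fun k : ℕ => (k : ℝ) ^ η) atTop atTop :=
    (tendsto_rpow_atTop hη).comp tendsto_natCast_atTop_atTop
  filter_upwards [tendsto_natCast_atTop_atTop.eventually h, h2.eventually_ge_atTop 2, eventually_ge_atTop 1]
    with k g1 g2 g3
  have hk0 : (0 : ℝ) < k := by exact_mod_cast g3
  have hL := Real.log_natCast_nonneg k
  have h3 : (gk k : ℝ) ≤ (k : ℝ) ^ η := by
    unfold gk
    push_cast
    have k1 : (⌊(Real.log k) ^ 3⌋₊ : ℝ) ≤ (Real.log k) ^ 3 := Nat.floor_le (by positivity)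
    have k2 : (Real.log k) ^ 3 ≤ 1 / 2 * (k : ℝ) ^ η := by
      have e3 : (Real.log k) ^ (3 : ℝ) = (Real.log k) ^ 3 := by norm_cast
      rw [e3] at g1
      refine (le_abs_self _).trans (g1.trans (le_of_eq ?_))
      rw [Real.norm_of_nonneg (by positivity)]
    linarith
  have hg0 : (0 : ℝ) < gk k := by
    unfold gk
    positivity
  unfold nk
  push_cast
  rw [Real.log_mul hk0.ne' hg0.ne']
  have h4 := Real.log_le_log hg0 h3
  rw [Real.log_rpow hk0] at h4
  linarith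

lemma nk_ratio : Tendsto (fun k : ℕ => Real.log k / Real.log (nk k)) atTop (𝓝 1) := by
  rw [Metric.tendsto_nhds]
  intro ε hε
  filter_upwards [nk_log (ε / 2) (by positivity), tlog.eventually_gt_atTop 0, eventually_ge_atTop 1] with k g1 g2 g3
  have hk0 : (0 : ℝ) < k := by exact_mod_cast g3
  have h1 : Real.log k ≤ Real.log (nk k) := Real.log_le_log hk0 (by exact_mod_cast le_nk k)
  have h2 : 0 < Real.log (nk k) := by linarith
  rw [Real.dist_eq, abs_lt]
  constructor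
  · have h3 : 1 - ε < Real.log k / Real.log (nk k) := by
      rw [lt_div_iff₀ h2]
      by_cases hε1 : ε < 1
      · calc (1 - ε) * Real.log (nk k) ≤ (1 - ε) * ((1 + ε / 2) * Real.log k) := by
              apply mul_le_mul_of_nonneg_left g1 (by linarith)
          _ < Real.log k := by nlinarith
      · have : (1 - ε) * Real.log (nk k) ≤ 0 := mul_nonpos_of_nonpos_of_nonneg (by linarith) h2.le
        linarith
    linarith
  · have h3 : Real.log k / Real.log (nk k) ≤ 1 := by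
      rw [div_le_one h2]
      exact h1
    linarith

omit [IsProbabilityMeasure μ] in
theorem reg_all (T : ℕ → ℕ) (hT : Monotone T)
    (hTs : ∀ θ : ℝ, 0 < θ → ∀ᶠ n : ℕ in atTop, (T n : ℝ) ≤ (Real.log n) ^ θ) (E : ℕ → Set Ω)
    (hm : ∀ n, MeasurableSet (E n)) (hE : iIndepSet E μ)
    (hq : ∀ m : ℕ, μ.real (E m) = min 1 (fT T m / Real.log m)) (C : ℝ) (hC : 0 < C) :
    Reg E μ (fun k => Wn C 2 (nk k)) C where
  meas := hm
  indep := hE
  disj := by
    have h1 := nk_log 1 one_pos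
    have h2 : ∀ᶠ k : ℕ in atTop, nk k + HL C 2 (nk k) < nk (k + 1) := by
      filter_upwards [h1, tlog.eventually_ge_atTop (4 * C), tlog.eventually_ge_atTop 0, eventually_ge_atTop 1]
        with k g1 g2 g3 g4
      have h3 : nk k + gk k ≤ nk (k + 1) := by
        have : (k + 1) * gk k ≤ (k + 1) * gk (k + 1) := Nat.mul_le_mul_left _ (gk_mono g4 (by omega))
        unfold nk
        nlinarith
      have h4 : HL C 2 (nk k) < gk k := by
        unfold HL gk
        apply Nat.lt_succ_of_le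
        apply Nat.floor_le_floor
        have e2 : (Real.log (nk k)) ^ (2 : ℝ) = (Real.log (nk k)) ^ 2 := by norm_cast
        rw [e2]
        have h5 : (Real.log (nk k)) ^ 2 ≤ ((1 + 1) * Real.log k) ^ 2 :=
          pow_le_pow_left₀ (Real.log_natCast_nonneg _) g1 2
        calc C * (Real.log (nk k)) ^ 2 ≤ C * ((1 + 1) * Real.log k) ^ 2 := by gcongr
          _ = 4 * C * (Real.log k) ^ 2 := by ring
          _ ≤ Real.log k * (Real.log k) ^ 2 := by gcongr
          _ = (Real.log k) ^ 3 := by ring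
      omega
    obtain ⟨n₀, hn₀⟩ := eventually_atTop.1 h2
    refine ⟨max n₀ 1, fun a c ha hac => ?_⟩
    rw [Finset.disjoint_left]
    intro m k1 k2
    unfold Wn at k1 k2
    rw [mem_Ioc] at k1 k2
    have k3 := hn₀ a ((le_max_left _ _).trans ha)
    have k4 : nk (a + 1) ≤ nk c := nk_mono (by omega) hac
    omega
  sum := by
    intro ε hε
    obtain ⟨η, hη⟩ : ∃ η, η = min 1 (ε / (C + 2)) := ⟨_, rfl⟩
    have hη0 : 0 < η := by
      rw [hη]
      exact lt_min one_pos (by positivity)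
    have hη1 : η ≤ 1 := by
      rw [hη]
      exact min_le_left _ _
    have hηC : η * (C + 2) ≤ ε := by
      calc η * (C + 2) ≤ ε / (C + 2) * (C + 2) := by
            have : η ≤ ε / (C + 2) := by
              rw [hη]
              exact min_le_right _ _
            gcongr
        _ = ε := by field_simp
    have h1 := nk_tendsto.eventually (W_sum T hT hTs (fun m => μ.real (E m)) hq C 2 hC le_rfl η hη0)
    filter_upwards [h1, nk_log η hη0, tlog.eventually_ge_atTop 0, eventually_ge_atTop 1] with k g1 g2 g3 g4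
    have hk0 : (0 : ℝ) < k := by exact_mod_cast g4
    have h3 : Real.log k ≤ Real.log (nk k) := Real.log_le_log hk0 (by exact_mod_cast le_nk k)
    have e2 : (Real.log (nk k)) ^ ((2 : ℝ) - 1) = Real.log (nk k) := by
      rw [show (2 : ℝ) - 1 = 1 by norm_num, Real.rpow_one]
    rw [e2] at g1
    have g1' := abs_le.1 g1
    have h4 : η * Real.log (nk k) ≤ 2 * η * Real.log k := by nlinarith
    have h5 : C * Real.log (nk k) ≤ C * Real.log k + η * C * Real.log k := by nlinarith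
    have h6 : C * Real.log k ≤ C * Real.log (nk k) := by gcongr
    have h7 : η * (C + 2) * Real.log k ≤ ε * Real.log k := by gcongr
    have h8 : 0 ≤ η * C * Real.log k := by positivity
    have h9 : 0 ≤ η * Real.log k := by positivity
    rw [abs_le]
    constructor
    · linarith
    · linarith
  small := by
    intro η hη
    have hsp := sub_pow T 1 (hTs 1 one_pos)
    obtain ⟨n₁, hn₁⟩ := eventually_atTop.1 (dens T hsp η hη)
    filter_upwards [eventually_ge_atTop n₁] with k g m hm'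
    rw [hq m]
    refine (min_le_right _ _).trans (hn₁ m (g.trans ((le_nk k).trans ?_)))
    unfold Wn at hm'
    exact (mem_Ioc.1 hm').1.le

/-- the limit points over all integers -/
theorem cluster_all (T : ℕ → ℕ) (hT : Monotone T)
    (hTs : ∀ θ : ℝ, 0 < θ → ∀ᶠ n : ℕ in atTop, (T n : ℝ) ≤ (Real.log n) ^ θ) (E : ℕ → Set Ω)
    (hm : ∀ n, MeasurableSet (E n)) (hE : iIndepSet E μ)
    (hq : ∀ m : ℕ, μ.real (E m) = min 1 (fT T m / Real.log m)) (C : ℝ) (hC : 0 < C) :
    ∀ᵐ ω ∂μ, ∀ β : ℝ, MapClusterPt β atTop (fun n : ℕ => cnt E (Wn C 2 n) ω / Real.log n) ↔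
      0 ≤ β ∧ rate C β ≤ 1 := by
  have h1 := cluster_sub (μ := μ) hm hE (Wn C 2) C hC (by
    intro ε hε
    filter_upwards [W_sum T hT hTs (fun m => μ.real (E m)) hq C 2 hC le_rfl ε hε] with n hn
    have e2 : (Real.log (n : ℝ)) ^ ((2 : ℝ) - 1) = Real.log n := by
      rw [show (2 : ℝ) - 1 = 1 by norm_num, Real.rpow_one]
    rwa [e2] at hn)
  have h2 := cluster (reg_all (μ := μ) T hT hTs E hm hE hq C hC) hC
  filter_upwards [h1, h2] with ω k1 k2 β
  refine ⟨k1 β, fun h => ?_⟩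
  have h3 := (k2 β).2 h
  have h4 : MapClusterPt β atTop ((fun n : ℕ => cnt E (Wn C 2 n) ω / Real.log n) ∘ nk) := by
    rw [mapClusterPt_iff_ultrafilter] at h3 ⊢
    obtain ⟨U, hU, hUt⟩ := h3
    refine ⟨U, hU, ?_⟩
    have h5 := hUt.mul (nk_ratio.mono_left hU)
    rw [mul_one] at h5
    refine h5.congr' ?_
    have h6 : ∀ᶠ k : ℕ in atTop, cnt E (Wn C 2 (nk k)) ω / Real.log k * (Real.log k / Real.log (nk k)) =
        ((fun n : ℕ => cnt E (Wn C 2 n) ω / Real.log n) ∘ nk) k := by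
      filter_upwards [tlog.eventually_gt_atTop 0] with k hk
      simp only [Function.comp_apply]
      rw [div_mul_div_cancel₀ hk.ne']
    exact hU h6
  exact h4.of_comp nk_tendsto

end Pool.Agent.U53.PW
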