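import Mathlib
import Pool.Agent.U53.PW.All

set_option autoImplicit false

/-! # Windows `(x, x + C (log x) ^ 2]` with real `x` -/

open Filter Finset Topology

namespace Pool.Agent.U53.PW

open Pool.Agent.U839.Thin (tlog)

variable {Ω : Type*}

/-- the number of the elements `m` of `Q` with `x < m ≤ x + C (log x) ^ 2` -/
noncomputable def NN2 (Q : Set ℕ) (C x : ℝ) : ℕ := {m : ℕ | m ∈ Q ∧ x < m ∧ (m : ℝ) ≤ x + C * (Real.log x) ^ 2}.ncard

open Classical in
lemma cnt_card (E : ℕ → Set Ω) (I : Finset ℕ) (ω : Ω) :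
    cnt E I ω = ((I.filter (fun m => ω ∈ E m)).card : ℝ) := by
  unfold cnt ind
  rw [Finset.card_filter]
  push_cast
  apply Finset.sum_congr rfl
  intro m _
  by_cases h : ω ∈ E m
  · rw [if_pos h, Set.indicator_of_mem h]
  · rw [if_neg h, Set.indicator_of_notMem h]

lemma sandwich (E : ℕ → Set Ω) (ω : Ω) (C : ℝ) (hC : 0 < C) : ∀ᶠ x : ℝ in atTop,
    cnt E (Wn C 2 ⌊x⌋₊) ω ≤ NN2 {m | ω ∈ E m} C x ∧ (NN2 {m | ω ∈ E m} C x : ℝ) ≤ cnt E (Wn C 2 ⌊x⌋₊) ω + 3 := by
  classical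
  have hx : Tendsto (fun x : ℝ => 4 * C * (Real.log x / x)) atTop (𝓝 0) := by
    have := loglog.const_mul (4 * C)
    rwa [mul_zero] at this
  filter_upwards [hx.eventually (gt_mem_nhds (show (0 : ℝ) < 1 by norm_num)), eventually_ge_atTop 2] with x g1 g2
  obtain ⟨n, hn⟩ : ∃ n, n = ⌊x⌋₊ := ⟨_, rfl⟩
  rw [← hn]
  have hx0 : 0 < x := by linarith
  have hnx : (n : ℝ) ≤ x := by
    rw [hn]
    exact Nat.floor_le hx0.le
  have hxn : x < n + 1 := by
    rw [hn]
    exact Nat.lt_floor_add_one x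
  have hn1 : (1 : ℝ) ≤ n := by
    have : 1 ≤ n := by
      rw [hn]
      exact Nat.le_floor (by push_cast; linarith)
    exact_mod_cast this
  have hn0 : (0 : ℝ) < n := by linarith
  have hLn : 0 ≤ Real.log (n : ℝ) := Real.log_nonneg hn1
  have hLx : Real.log (n : ℝ) ≤ Real.log x := Real.log_le_log hn0 hnx
  have hd : Real.log x - Real.log n ≤ 1 / n := by
    rw [← Real.log_div hx0.ne' hn0.ne']
    refine (Real.log_le_sub_one_of_pos (by positivity)).trans ?_
    rw [div_sub_one hn0.ne']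
    gcongr
    linarith
  have hh : C * (Real.log x) ^ 2 ≤ C * (Real.log n) ^ 2 + 1 := by
    have h1 : (Real.log x) ^ 2 - (Real.log n) ^ 2 ≤ 1 / n * (2 * Real.log x) := by
      have : (Real.log x) ^ 2 - (Real.log n) ^ 2 = (Real.log x - Real.log n) * (Real.log x + Real.log n) := by ring
      rw [this]
      apply mul_le_mul hd (by linarith) (by linarith) (by positivity)
    have h2 : 1 / (n : ℝ) ≤ 2 / x := by
      rw [div_le_div_iff₀ hn0 hx0]
      linarith
    have h3 : 1 / (n : ℝ) * (2 * Real.log x) ≤ 2 / x * (2 * Real.log x) := by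
      apply mul_le_mul_of_nonneg_right h2
      linarith
    have h4 : C * (2 / x * (2 * Real.log x)) = 4 * C * (Real.log x / x) := by ring
    have h5 : C * ((Real.log x) ^ 2 - (Real.log n) ^ 2) ≤ C * (2 / x * (2 * Real.log x)) := by
      gcongr
      linarith
    linarith
  have hW : Wn C 2 n = Ioc n (n + ⌊C * (Real.log n) ^ 2⌋₊) := by
    unfold Wn HL
    have e2 : (Real.log (n : ℝ)) ^ (2 : ℝ) = (Real.log n) ^ 2 := by norm_cast
    rw [e2]
  have hK1 : (⌊C * (Real.log n) ^ 2⌋₊ : ℝ) ≤ C * (Real.log n) ^ 2 := Nat.floor_le (by positivity)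
  have hK2 : C * (Real.log n) ^ 2 < ⌊C * (Real.log n) ^ 2⌋₊ + 1 := Nat.lt_floor_add_one _
  obtain ⟨K, hK⟩ : ∃ K, K = ⌊C * (Real.log n) ^ 2⌋₊ := ⟨_, rfl⟩
  rw [← hK] at hW hK1 hK2
  have hmono : C * (Real.log n) ^ 2 ≤ C * (Real.log x) ^ 2 := by
    have := pow_le_pow_left₀ hLn hLx 2
    gcongr
  have hfin : {m : ℕ | m ∈ {m | ω ∈ E m} ∧ x < m ∧ (m : ℝ) ≤ x + C * (Real.log x) ^ 2} ⊆
      (((Ioc n (n + K + 3)).filter (fun m => ω ∈ E m) : Finset ℕ) : Set ℕ) := by
    rintro m ⟨k1, k2, k3⟩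
    rw [Finset.coe_filter]
    refine ⟨?_, k1⟩
    rw [mem_Ioc]
    constructor
    · have : (n : ℝ) < m := by linarith
      exact_mod_cast this
    · have : (m : ℝ) < ((n + K + 3 : ℕ) : ℝ) := by
        push_cast
        linarith
      exact le_of_lt (by exact_mod_cast this)
  have hsup : (((Wn C 2 n).filter (fun m => ω ∈ E m) : Finset ℕ) : Set ℕ) ⊆
      {m : ℕ | m ∈ {m | ω ∈ E m} ∧ x < m ∧ (m : ℝ) ≤ x + C * (Real.log x) ^ 2} := by
    intro m hm
    rw [Finset.coe_filter] at hm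
    obtain ⟨k1, k2⟩ := hm
    rw [hW, mem_Ioc] at k1
    refine ⟨k2, ?_, ?_⟩
    · have : ((n + 1 : ℕ) : ℝ) ≤ m := by exact_mod_cast k1.1
      push_cast at this
      linarith
    · have : (m : ℝ) ≤ ((n + K : ℕ) : ℝ) := by exact_mod_cast k1.2
      push_cast at this
      linarith
  rw [cnt_card]
  unfold NN2
  constructor
  · have h1 := Set.ncard_le_ncard hsup ((Finset.finite_toSet _).subset hfin)
    rw [Set.ncard_coe_finset] at h1
    exact_mod_cast h1
  · have h1 := Set.ncard_le_ncard hfin (Finset.finite_toSet _)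
    rw [Set.ncard_coe_finset] at h1
    have h2 : ((Ioc n (n + K + 3)).filter (fun m => ω ∈ E m)).card ≤
        ((Wn C 2 n).filter (fun m => ω ∈ E m)).card + 3 := by
      have h3 : (Ioc n (n + K + 3)).filter (fun m => ω ∈ E m) ⊆
          (Wn C 2 n).filter (fun m => ω ∈ E m) ∪ Ioc (n + K) (n + K + 3) := by
        intro m hm
        rw [mem_filter, mem_Ioc] at hm
        rw [mem_union, mem_filter, hW, mem_Ioc, mem_Ioc]
        by_cases h4 : m ≤ n + K
        · exact Or.inl ⟨⟨hm.1.1, h4⟩, hm.2⟩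
        · exact Or.inr ⟨by omega, hm.1.2⟩
      refine (card_le_card h3).trans ((card_union_le _ _).trans ?_)
      rw [Nat.card_Ioc]
      omega
    have h3 := h1.trans h2
    exact_mod_cast h3

/-- the limit points over the real numbers -/
theorem real_cluster (E : ℕ → Set Ω) (ω : Ω) (C : ℝ) (hC : 0 < C) (r : ℝ) :
    MapClusterPt r (atTop : Filter ℝ)
      (fun x : ℝ => Real.log x / (C * (Real.log x) ^ 2) * (NN2 {m | ω ∈ E m} C x : ℝ)) ↔
    MapClusterPt (C * r) atTop (fun n : ℕ => cnt E (Wn C 2 n) ω / Real.log n) := by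
  obtain ⟨G, hG⟩ : ∃ G : ℕ → ℝ, G = fun n : ℕ => cnt E (Wn C 2 n) ω / Real.log n := ⟨_, rfl⟩
  obtain ⟨R, hR⟩ : ∃ R : ℝ → ℝ, R = fun x : ℝ => Real.log x / (C * (Real.log x) ^ 2) *
    (NN2 {m | ω ∈ E m} C x : ℝ) := ⟨_, rfl⟩
  rw [← hG, ← hR]
  obtain ⟨ρ, hρ⟩ : ∃ ρ : ℝ → ℝ, ρ = fun x : ℝ => Real.log (⌊x⌋₊ : ℝ) / Real.log x := ⟨_, rfl⟩
  obtain ⟨δ, hδ⟩ : ∃ δ : ℝ → ℝ, δ = fun x : ℝ => ((NN2 {m | ω ∈ E m} C x : ℝ) - cnt E (Wn C 2 ⌊x⌋₊) ω) /
    (C * Real.log x) := ⟨_, rfl⟩
  have hLt : Tendsto Real.log atTop atTop := Real.tendsto_log_atTop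
  have hfl : Tendsto (fun x : ℝ => ⌊x⌋₊) atTop atTop := tendsto_nat_floor_atTop
  have hρ1 : Tendsto ρ atTop (𝓝 1) := by
    rw [hρ]
    have h1 : Tendsto (fun x : ℝ => 1 - 1 / Real.log x) atTop (𝓝 (1 - 0)) :=
      tendsto_const_nhds.sub (tendsto_const_nhds.div_atTop hLt)
    rw [sub_zero] at h1
    refine tendsto_of_tendsto_of_tendsto_of_le_of_le' h1 tendsto_const_nhds ?_ ?_
    · filter_upwards [hLt.eventually_gt_atTop 0, eventually_ge_atTop 2] with x g1 g2
      have hn1 : (1 : ℝ) ≤ (⌊x⌋₊ : ℝ) := by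
        have : 1 ≤ ⌊x⌋₊ := Nat.le_floor (by push_cast; linarith)
        exact_mod_cast this
      have hxn := Nat.lt_floor_add_one x
      rw [sub_le_iff_le_add, ← add_div, le_div_iff₀ g1, one_mul]
      have h2 : x ≤ (⌊x⌋₊ : ℝ) * 2 := by linarith
      have h3 := Real.log_le_log (by linarith) h2
      rw [Real.log_mul (by linarith) (by norm_num)] at h3
      have h4 := Real.log_two_lt_d9
      linarith
    · filter_upwards [hLt.eventually_gt_atTop 0, eventually_ge_atTop 2] with x g1 g2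
      have hn1 : (1 : ℝ) ≤ (⌊x⌋₊ : ℝ) := by
        have : 1 ≤ ⌊x⌋₊ := Nat.le_floor (by push_cast; linarith)
        exact_mod_cast this
      rw [div_le_one g1]
      exact Real.log_le_log (by linarith) (Nat.floor_le (by linarith))
  have hδ1 : Tendsto δ atTop (𝓝 0) := by
    rw [hδ]
    have h1 : Tendsto (fun x : ℝ => 3 / (C * Real.log x)) atTop (𝓝 0) :=
      tendsto_const_nhds.div_atTop (hLt.const_mul_atTop hC)
    refine squeeze_zero' ?_ ?_ h1
    · filter_upwards [sandwich E ω C hC, hLt.eventually_gt_atTop 0] with x g1 g2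
      exact div_nonneg (by linarith [g1.1]) (by positivity)
    · filter_upwards [sandwich E ω C hC, hLt.eventually_gt_atTop 0] with x g1 g2
      apply div_le_div_of_nonneg_right _ (by positivity)
      linarith [g1.2]
  have hRG : ∀ᶠ x : ℝ in atTop, R x = G ⌊x⌋₊ * ρ x / C + δ x := by
    filter_upwards [hLt.eventually_gt_atTop 0, (hLt.comp (tendsto_natCast_atTop_atTop.comp hfl)).eventually_gt_atTop 0]
      with x g1 g2
    have g2' : 0 < Real.log (⌊x⌋₊ : ℝ) := g2
    rw [hR, hG, hρ, hδ]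
    simp only
    field_simp
    ring
  constructor
  · intro h
    have h1 : MapClusterPt (C * r) (atTop : Filter ℝ) (G ∘ fun x : ℝ => ⌊x⌋₊) := by
      rw [mapClusterPt_iff_ultrafilter] at h ⊢
      obtain ⟨U, hU, hUt⟩ := h
      refine ⟨U, hU, ?_⟩
      have h2 : Tendsto (fun x => (R x - δ x) * C / ρ x) U (𝓝 ((r - 0) * C / 1)) :=
        ((hUt.sub (hδ1.mono_left hU)).mul_const C).div (hρ1.mono_left hU) one_ne_zero
      have e : (r - 0) * C / 1 = C * r := by ring
      rw [e] at h2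
      refine h2.congr' ?_
      have h3 : ∀ᶠ x : ℝ in atTop, (R x - δ x) * C / ρ x = (G ∘ fun x : ℝ => ⌊x⌋₊) x := by
        filter_upwards [hRG, hρ1.eventually (lt_mem_nhds (show (0 : ℝ) < 1 by norm_num))] with x g1 g2
        rw [g1, Function.comp_apply]
        field_simp
        ring
      exact hU h3
    exact h1.of_comp hfl
  · intro h
    have h1 : MapClusterPt r (atTop : Filter ℕ) (R ∘ fun n : ℕ => (n : ℝ)) := by
      rw [mapClusterPt_iff_ultrafilter] at h ⊢
      obtain ⟨U, hU, hUt⟩ := h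
      refine ⟨U, hU, ?_⟩
      have hc : Tendsto (fun n : ℕ => (n : ℝ)) U atTop := tendsto_natCast_atTop_atTop.mono_left hU
      have h2 : Tendsto (fun n : ℕ => G n * ρ n / C + δ n) U (𝓝 (C * r * 1 / C + 0)) :=
        ((hUt.mul (hρ1.comp hc)).div_const C).add (hδ1.comp hc)
      have e : C * r * 1 / C + 0 = r := by
        rw [mul_one, add_zero, mul_div_cancel_left₀ r hC.ne']
      rw [e] at h2
      refine h2.congr' ?_
      have h3 : ∀ᶠ n : ℕ in atTop, G n * ρ n / C + δ n = (R ∘ fun n : ℕ => (n : ℝ)) n := by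
        filter_upwards [tendsto_natCast_atTop_atTop.eventually hRG] with n g1
        rw [Function.comp_apply, g1, Nat.floor_natCast]
      exact hU h3
    exact h1.of_comp tendsto_natCast_atTop_atTop

/-- the rate function in terms of the quotient `r = β / C` -/
lemma rate_scale (C : ℝ) (hC : 0 < C) (r : ℝ) : rate C (C * r) = C * (1 - r + r * Real.log r) := by
  unfold rate
  rw [mul_div_cancel_left₀ r hC.ne']
  ring

/-- `1 - r + r log r ≥ (√r - 1)²` -/
lemma rate_sqrt (r : ℝ) (hr : 0 ≤ r) : (√r - 1) ^ 2 ≤ 1 - r + r * Real.log r := by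
  rcases hr.eq_or_lt with h | h
  · rw [← h]
    simp
  · obtain ⟨y, hy⟩ : ∃ y, y = √r := ⟨_, rfl⟩
    have hy0 : 0 < y := by
      rw [hy]
      exact Real.sqrt_pos.2 h
    have hr2 : r = y ^ 2 := by
      rw [hy, Real.sq_sqrt hr]
    rw [← hy, hr2, Real.log_pow]
    have h1 := Real.one_sub_inv_le_log_of_pos hy0
    have h2 : y ^ 2 * (1 - y⁻¹) ≤ y ^ 2 * Real.log y := by gcongr
    have h3 : y ^ 2 * (1 - y⁻¹) = y ^ 2 - y := by
      field_simp
    push_cast
    nlinarith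

end Pool.Agent.U53.PW

namespace Pool.Agent.U53.PW

open MeasureTheory ProbabilityTheory
open Pool.Agent.U839.Sv (fT)
open Pool.Agent.U839.Thin (tlog)

/-- the counts are bounded by a multiple of `log x` -/
theorem bounded {Ω : Type*} [mΩ : MeasurableSpace Ω] {μ : Measure Ω} [IsProbabilityMeasure μ] (T : ℕ → ℕ)
    (hT : Monotone T)
    (hTs : ∀ θ : ℝ, 0 < θ → ∀ᶠ n : ℕ in atTop, (T n : ℝ) ≤ (Real.log n) ^ θ) (E : ℕ → Set Ω)
    (hm : ∀ n, MeasurableSet (E n)) (hE : iIndepSet E μ)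
    (hq : ∀ m : ℕ, μ.real (E m) = min 1 (fT T m / Real.log m)) (C : ℝ) (hC : 0 < C) :
    ∃ B : ℝ, ∀ᵐ ω ∂μ, ∀ᶠ x : ℝ in atTop,
      0 ≤ Real.log x / (C * (Real.log x) ^ 2) * (NN2 {m | ω ∈ E m} C x : ℝ) ∧
      Real.log x / (C * (Real.log x) ^ 2) * (NN2 {m | ω ∈ E m} C x : ℝ) ≤ B := by
  -- a number with large rate
  obtain ⟨r, hr1, hr2⟩ : ∃ r : ℝ, 1 < r ∧ 2 < C * (1 - r + r * Real.log r) := by
    refine ⟨Real.exp (2 / C + 2), ?_, ?_⟩
    · rw [← Real.exp_zero]
      apply Real.exp_lt_exp.2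
      positivity
    · rw [Real.log_exp]
      have h1 : 1 < Real.exp (2 / C + 2) := by
        rw [← Real.exp_zero]
        apply Real.exp_lt_exp.2
        positivity
      have h2 : 2 / C < 1 - Real.exp (2 / C + 2) + Real.exp (2 / C + 2) * (2 / C + 2) := by
        have h3 : 0 < 2 / C := by positivity
        nlinarith
      have h4 : C * (2 / C) = 2 := by field_simp
      nlinarith
  have hrate : 2 < rate C (C * r) := by
    rw [rate_scale C hC]
    exact hr2
  have hab := above' (μ := μ) hm hE (Wn C 2) (fun n => Real.log n) C (C * r) 2 2 hC (by nlinarith) hrate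
    (by norm_num) (by
      intro ε hε
      filter_upwards [W_sum T hT hTs (fun m => μ.real (E m)) hq C 2 hC le_rfl ε hε] with n hn
      have e2 : (Real.log (n : ℝ)) ^ ((2 : ℝ) - 1) = Real.log n := by
        rw [show (2 : ℝ) - 1 = 1 by norm_num, Real.rpow_one]
      rwa [e2] at hn) (tlog.eventually_ge_atTop 0) (Eventually.of_forall fun n => le_rfl)
  refine ⟨r + 3 / C, ?_⟩
  filter_upwards [hab] with ω hω
  have hfl : Tendsto (fun x : ℝ => ⌊x⌋₊) atTop atTop := tendsto_nat_floor_atTop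
  filter_upwards [hfl.eventually hω, sandwich E ω C hC, Real.tendsto_log_atTop.eventually_ge_atTop 1,
    eventually_ge_atTop 2] with x g1 g2 g3 g4
  have hL : 0 < Real.log x := by linarith
  constructor
  · positivity
  · have hn1 : (1 : ℝ) ≤ (⌊x⌋₊ : ℝ) := by
      have : 1 ≤ ⌊x⌋₊ := Nat.le_floor (by push_cast; linarith)
      exact_mod_cast this
    have h1 : Real.log (⌊x⌋₊ : ℝ) ≤ Real.log x := Real.log_le_log (by linarith) (Nat.floor_le (by linarith))
    have h2 : (NN2 {m | ω ∈ E m} C x : ℝ) ≤ C * r * Real.log x + 3 := by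
      have : C * r * Real.log (⌊x⌋₊ : ℝ) ≤ C * r * Real.log x := by
        apply mul_le_mul_of_nonneg_left h1
        nlinarith
      linarith [g2.2]
    have h3 : Real.log x / (C * (Real.log x) ^ 2) = 1 / (C * Real.log x) := by
      field_simp
    rw [h3, one_div, inv_mul_le_iff₀ (by positivity)]
    refine h2.trans ?_
    have h4 : C * Real.log x * (r + 3 / C) = C * r * Real.log x + 3 * Real.log x := by
      field_simp
    rw [h4]
    linarith

end Pool.Agent.U53.PW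

namespace Pool.Agent.U53.PW

/-- upper limits and limit points -/
lemma limsup_le_of_cluster (u : ℝ → ℝ) (B M : ℝ) (hb : ∀ᶠ x in atTop, 0 ≤ u x ∧ u x ≤ B)
    (h : ∀ r, MapClusterPt r atTop u → r ≤ M) : limsup u atTop ≤ M := by
  have h0 : IsBoundedUnder (· ≥ ·) atTop u := ⟨0, by
    rw [eventually_map]
    exact hb.mono fun x hx => hx.1⟩
  apply le_of_forall_pos_le_add
  intro ε hε
  apply limsup_le_of_le h0.isCoboundedUnder_le
  by_contra hc
  have h1 : ∃ᶠ x in atTop, u x ∈ Set.Icc (M + ε) B := by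
    rw [not_eventually] at hc
    refine (hc.and_eventually hb).mono fun x hx => ⟨?_, hx.2.2⟩
    exact (not_le.1 hx.1).le
  obtain ⟨a, ha, hac⟩ := isCompact_Icc.exists_mapClusterPt_of_frequently h1
  have := h a hac
  linarith [ha.1]

lemma le_liminf_of_cluster (u : ℝ → ℝ) (B m : ℝ) (hb : ∀ᶠ x in atTop, 0 ≤ u x ∧ u x ≤ B)
    (h : ∀ r, MapClusterPt r atTop u → m ≤ r) : m ≤ liminf u atTop := by
  have h0 : IsBoundedUnder (· ≤ ·) atTop u := ⟨B, by
    rw [eventually_map]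
    exact hb.mono fun x hx => hx.2⟩
  apply le_of_forall_pos_le_add
  intro ε hε
  rw [← sub_le_iff_le_add]
  apply le_liminf_of_le h0.isCoboundedUnder_ge
  by_contra hc
  have h1 : ∃ᶠ x in atTop, u x ∈ Set.Icc 0 (m - ε) := by
    rw [not_eventually] at hc
    refine (hc.and_eventually hb).mono fun x hx => ⟨hx.2.1, ?_⟩
    exact (not_le.1 hx.1).le
  obtain ⟨a, ha, hac⟩ := isCompact_Icc.exists_mapClusterPt_of_frequently h1
  have := h a hac
  linarith [ha.2]

lemma cluster_le_limsup (u : ℝ → ℝ) (B r : ℝ) (hb : ∀ᶠ x in atTop, 0 ≤ u x ∧ u x ≤ B)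
    (h : MapClusterPt r atTop u) : r ≤ limsup u atTop := by
  have h0 : IsBoundedUnder (· ≤ ·) atTop u := ⟨B, by
    rw [eventually_map]
    exact hb.mono fun x hx => hx.2⟩
  apply le_of_forall_pos_le_add
  intro ε hε
  rw [← sub_le_iff_le_add]
  apply le_limsup_of_frequently_le _ h0
  have h1 := mapClusterPt_iff_frequently.1 h (Set.Ioi (r - ε)) (Ioi_mem_nhds (by linarith))
  exact h1.mono fun x hx => le_of_lt hx

lemma liminf_le_cluster (u : ℝ → ℝ) (B r : ℝ) (hb : ∀ᶠ x in atTop, 0 ≤ u x ∧ u x ≤ B)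
    (h : MapClusterPt r atTop u) : liminf u atTop ≤ r := by
  have h0 : IsBoundedUnder (· ≥ ·) atTop u := ⟨0, by
    rw [eventually_map]
    exact hb.mono fun x hx => hx.1⟩
  apply le_of_forall_pos_le_add
  intro ε hε
  apply liminf_le_of_frequently_le _ h0
  have h1 := mapClusterPt_iff_frequently.1 h (Set.Iio (r + ε)) (Iio_mem_nhds (by linarith))
  exact h1.mono fun x hx => le_of_lt hx

end Pool.Agent.U53.PW
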